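import Mathlib

/-!
# Admissible residue classes
-/

set_option autoImplicit false

namespace Pool.Agent.Q3.NK

/-- The error of the vector `m` as an approximation to `k y`. -/
noncomputable def err (y : ℝ × ℝ) (k : ℕ) (m : ℤ × ℤ) : ℝ := max |k * y.1 - m.1| |k * y.2 - m.2|

theorem exists_min (y : ℝ × ℝ) (w : ℕ) (hw : 2 ≤ w) : ∃ (v : ℕ) (b : ℤ × ℤ), 1 ≤ v ∧ v < w ∧
    (∃ α β γ : ℤ, α * v + β * b.1 + γ * b.2 = 1) ∧
    ∀ k : ℕ, 1 ≤ k → k < w → ∀ m : ℤ × ℤ, err y v b ≤ err y k m := by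
  classical
  -- minimal error
  have hex : ∃ v : ℕ, (1 ≤ v ∧ v < w) ∧ ∃ b : ℤ × ℤ, ∀ k : ℕ, 1 ≤ k → k < w → ∀ m : ℤ × ℤ,
      err y v b ≤ err y k m := by
    obtain ⟨v, hv, hmin⟩ := Finset.exists_min_image (Finset.Ico 1 w)
      (fun k : ℕ => err y k (round (k * y.1), round (k * y.2))) ⟨1, by simp; omega⟩
    rw [Finset.mem_Ico] at hv
    refine ⟨v, hv, (round (v * y.1), round (v * y.2)), fun k hk1 hk2 m => ?_⟩
    refine (hmin k (by rw [Finset.mem_Ico]; exact ⟨hk1, hk2⟩)).trans ?_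
    unfold err
    exact max_le_max (round_le _ _) (round_le _ _)
  obtain ⟨⟨h1, h2⟩, b, hb⟩ := Nat.find_spec hex
  set v := Nat.find hex with hvdef
  refine ⟨v, b, h1, h2, ?_, hb⟩
  -- primitive
  set g : ℕ := Int.gcd v (Int.gcd b.1 b.2) with hg
  have hgv : (g : ℤ) ∣ v := Int.gcd_dvd_left _ _
  have hgb : (g : ℤ) ∣ (Int.gcd b.1 b.2 : ℤ) := Int.gcd_dvd_right _ _
  have hgb1 : (g : ℤ) ∣ b.1 := hgb.trans (Int.gcd_dvd_left _ _)
  have hgb2 : (g : ℤ) ∣ b.2 := hgb.trans (Int.gcd_dvd_right _ _)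
  have hg0 : 1 ≤ g := by
    rcases Nat.eq_zero_or_pos g with h | h
    · rw [h] at hgv
      simp at hgv
      omega
    · exact h
  have hg1 : g = 1 := by
    by_contra hne
    have hg2 : 2 ≤ g := by omega
    obtain ⟨v', hv'⟩ := hgv
    obtain ⟨c1, hc1⟩ := hgb1
    obtain ⟨c2, hc2⟩ := hgb2
    have hv'0 : 0 < v' := by
      by_contra hcon
      push Not at hcon
      have : (1 : ℤ) ≤ v := by exact_mod_cast h1
      have : (2 : ℤ) ≤ g := by exact_mod_cast hg2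
      nlinarith
    obtain ⟨v'', rfl⟩ := Int.eq_ofNat_of_zero_le hv'0.le
    have hvv : v = g * v'' := by exact_mod_cast hv'
    have hv''0 : 0 < v'' := by exact_mod_cast hv'0
    have hlt : v'' < v := by nlinarith
    refine Nat.find_min hex hlt ⟨⟨hv''0, by omega⟩, (c1, c2), fun k hk1 hk2 m => ?_⟩
    refine le_trans ?_ (hb k hk1 hk2 m)
    have hgr : (1 : ℝ) ≤ g := by exact_mod_cast hg0
    have e1 : |(v : ℝ) * y.1 - b.1| = g * |v'' * y.1 - c1| := by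
      have h5 : (v : ℝ) * y.1 - b.1 = (g : ℝ) * (v'' * y.1 - c1) := by
        rw [hvv, hc1]; push_cast; ring
      rw [h5, abs_mul, abs_of_nonneg (by positivity : (0 : ℝ) ≤ g)]
    have e2 : |(v : ℝ) * y.2 - b.2| = g * |v'' * y.2 - c2| := by
      have h5 : (v : ℝ) * y.2 - b.2 = (g : ℝ) * (v'' * y.2 - c2) := by
        rw [hvv, hc2]; push_cast; ring
      rw [h5, abs_mul, abs_of_nonneg (by positivity : (0 : ℝ) ≤ g)]
    unfold err
    rw [e1, e2]
    apply max_le_max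
    · have := abs_nonneg ((v'' : ℝ) * y.1 - c1)
      nlinarith
    · have := abs_nonneg ((v'' : ℝ) * y.2 - c2)
      nlinarith
  have e1 := Int.gcd_eq_gcd_ab b.1 b.2
  have e2 := Int.gcd_eq_gcd_ab (v : ℤ) (Int.gcd b.1 b.2 : ℤ)
  rw [← hg, hg1] at e2
  refine ⟨Int.gcdA v (Int.gcd b.1 b.2), Int.gcdB v (Int.gcd b.1 b.2) * Int.gcdA b.1 b.2,
    Int.gcdB v (Int.gcd b.1 b.2) * Int.gcdB b.1 b.2, ?_⟩
  push_cast at e2
  linear_combination (-1) * e2 - (Int.gcdB v (Int.gcd b.1 b.2)) * e1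

/-- A choice of minimising vectors. -/
structure Choice (y : ℝ × ℝ) where
  V : ℕ → ℕ
  B : ℕ → ℤ × ℤ
  pos : ∀ w, 2 ≤ w → 1 ≤ V w
  lt : ∀ w, 2 ≤ w → V w < w
  prim : ∀ w, 2 ≤ w → ∃ α β γ : ℤ, α * V w + β * (B w).1 + γ * (B w).2 = 1
  min : ∀ w, 2 ≤ w → ∀ k : ℕ, 1 ≤ k → k < w → ∀ m : ℤ × ℤ, err y (V w) (B w) ≤ err y k m

theorem exists_choice (y : ℝ × ℝ) : Nonempty (Choice y) := by
  choose! V B h1 h2 h3 h4 using fun w hw => exists_min y w hw
  exact ⟨⟨V, B, h1, h2, h3, h4⟩⟩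

/-- `a` is admissible for `q`. -/
def Adm {y : ℝ × ℝ} (C : Choice y) (q : ℕ) (a : ℤ × ℤ) : Prop :=
  ∀ w : ℕ, w ∣ q → 2 ≤ w → ¬ ((w : ℤ) ∣ C.V w * a.1 + (C.B w).1 ∧ (w : ℤ) ∣ C.V w * a.2 + (C.B w).2)

theorem dvd_of_bezout {v b1 b2 : ℤ} (h : ∃ α β γ : ℤ, α * v + β * b1 + γ * b2 = 1) (w X : ℤ)
    (h1 : w ∣ X * v) (h2 : w ∣ X * b1) (h3 : w ∣ X * b2) : w ∣ X := by
  obtain ⟨α, β, γ, h⟩ := h
  have : X = α * (X * v) + β * (X * b1) + γ * (X * b2) := by linear_combination (-X) * h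
  rw [this]
  exact dvd_add (dvd_add (h1.mul_left _) (h2.mul_left _)) (h3.mul_left _)

/-- Two bad classes modulo `w` coincide. -/
theorem class_unique {y : ℝ × ℝ} (C : Choice y) (w : ℕ) (hw : 2 ≤ w) (a c : ℤ × ℤ)
    (ha1 : (w : ℤ) ∣ C.V w * a.1 + (C.B w).1) (ha2 : (w : ℤ) ∣ C.V w * a.2 + (C.B w).2)
    (hc1 : (w : ℤ) ∣ C.V w * c.1 + (C.B w).1) (hc2 : (w : ℤ) ∣ C.V w * c.2 + (C.B w).2) :
    (w : ℤ) ∣ a.1 - c.1 ∧ (w : ℤ) ∣ a.2 - c.2 := by
  -- first: gcd (V, w) = 1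
  have hcop : IsCoprime (C.V w : ℤ) (w : ℤ) := by
    rw [Int.isCoprime_iff_gcd_eq_one]
    set g := Int.gcd (C.V w : ℤ) (w : ℤ)
    have g1 : (g : ℤ) ∣ C.V w := Int.gcd_dvd_left _ _
    have g2 : (g : ℤ) ∣ w := Int.gcd_dvd_right _ _
    have g3 : (g : ℤ) ∣ (C.B w).1 := by
      have := dvd_sub (g2.trans ha1) (g1.mul_right a.1)
      simpa using this
    have g4 : (g : ℤ) ∣ (C.B w).2 := by
      have := dvd_sub (g2.trans ha2) (g1.mul_right a.2)
      simpa using this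
    have := dvd_of_bezout (C.prim w hw) g 1 (by simpa using g1) (by simpa using g3)
      (by simpa using g4)
    have := Int.natAbs_dvd_natAbs.mpr this
    simpa using this
  constructor
  · apply hcop.symm.dvd_of_dvd_mul_left
    have := dvd_sub ha1 hc1
    have e : (C.V w : ℤ) * (a.1 - c.1) = C.V w * a.1 + (C.B w).1 - (C.V w * c.1 + (C.B w).1) := by
      ring
    rwa [e]
  · apply hcop.symm.dvd_of_dvd_mul_left
    have := dvd_sub ha2 hc2
    have e : (C.V w : ℤ) * (a.2 - c.2) = C.V w * a.2 + (C.B w).2 - (C.V w * c.2 + (C.B w).2) := by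
      ring
    rwa [e]

/-- If `w ∣ m + k a` with `a` admissible for a multiple of `w` and `gcd(k,w)=1`, then `(k,m)` is not
parallel to `(V w, B w)`. -/
theorem not_parallel {y : ℝ × ℝ} (C : Choice y) (w : ℕ) (hw : 2 ≤ w) (q : ℕ) (hwq : w ∣ q)
    (a : ℤ × ℤ) (ha : Adm C q a) (k : ℕ) (m : ℤ × ℤ) (hk : Nat.Coprime k w)
    (h1 : (w : ℤ) ∣ m.1 + k * a.1) (h2 : (w : ℤ) ∣ m.2 + k * a.2) :
    ¬ ((C.V w : ℤ) * m.1 = k * (C.B w).1 ∧ (C.V w : ℤ) * m.2 = k * (C.B w).2) := by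
  rintro ⟨e1, e2⟩
  -- V ∣ k
  have hV : (C.V w : ℤ) ∣ k := dvd_of_bezout (C.prim w hw) _ _ (Dvd.intro_left _ rfl)
    (by rw [← e1]; exact Dvd.intro _ rfl) (by rw [← e2]; exact Dvd.intro _ rfl)
  obtain ⟨j, hj⟩ := hV
  have hV0 : (C.V w : ℤ) ≠ 0 := by
    have := C.pos w hw
    omega
  have m1 : m.1 = j * (C.B w).1 := by
    apply mul_left_cancel₀ hV0
    rw [e1, hj]; ring
  have m2 : m.2 = j * (C.B w).2 := by
    apply mul_left_cancel₀ hV0
    rw [e2, hj]; ring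
  have hcop : IsCoprime (w : ℤ) j := by
    have : IsCoprime (k : ℤ) (w : ℤ) := Nat.isCoprime_iff_coprime.mpr hk
    rw [hj] at this
    exact this.of_mul_left_right.symm
  apply ha w hwq hw
  constructor
  · apply hcop.dvd_of_dvd_mul_left
    have : j * ((C.V w : ℤ) * a.1 + (C.B w).1) = m.1 + k * a.1 := by rw [m1, hj]; ring
    rw [this]; exact h1
  · apply hcop.dvd_of_dvd_mul_left
    have : j * ((C.V w : ℤ) * a.2 + (C.B w).2) = m.2 + k * a.2 := by rw [m2, hj]; ring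
    rw [this]; exact h2

/-- The key exclusion: a common point of the neighbourhoods of `(a+y)/q` and `(a'+y)/Q` with `a, a'`
admissible gives a near vector not parallel to the minimising one. -/
theorem exclusion {y : ℝ × ℝ} (C : Choice y) (G u U : ℕ) (hu : 1 ≤ u) (hU : 1 ≤ U)
    (hcop : Nat.Coprime u U) (hne : u ≠ U) (a a' : ℤ × ℤ) (ha : Adm C (G * u) a)
    (ha' : Adm C (G * U) a') (x : ℝ × ℝ) (s t : ℝ)
    (h1 : |((G * u : ℕ) : ℝ) * x.1 - a.1 - y.1| < s) (h2 : |((G * u : ℕ) : ℝ) * x.2 - a.2 - y.2| < s)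
    (h3 : |((G * U : ℕ) : ℝ) * x.1 - a'.1 - y.1| < t)
    (h4 : |((G * U : ℕ) : ℝ) * x.2 - a'.2 - y.2| < t) :
    ∃ m : ℤ × ℤ, |((max u U - min u U : ℕ) : ℝ) * y.1 - m.1| < U * s + u * t ∧
      |((max u U - min u U : ℕ) : ℝ) * y.2 - m.2| < U * s + u * t ∧
      ¬ ((C.V (max u U) : ℤ) * m.1 = ((max u U - min u U : ℕ) : ℤ) * (C.B (max u U)).1 ∧
        (C.V (max u U) : ℤ) * m.2 = ((max u U - min u U : ℕ) : ℤ) * (C.B (max u U)).2) := by
  have hu' : (0 : ℝ) < u := by exact_mod_cast hu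
  have hU' : (0 : ℝ) < U := by exact_mod_cast hU
  push_cast at h1 h2 h3 h4
  -- the basic inequality in each coordinate
  have basic : ∀ (X Y : ℝ) (p p' : ℤ), |(G : ℝ) * u * X - p - Y| < s → |(G : ℝ) * U * X - p' - Y| < t →
      |((U : ℝ) - u) * Y + (U * p - u * p')| < U * s + u * t := by
    intro X Y p p' e1 e2
    have e3 : ((U : ℝ) - u) * Y + (U * p - u * p') =
        u * ((G : ℝ) * U * X - p' - Y) - U * ((G : ℝ) * u * X - p - Y) := by ring
    rw [e3]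
    calc |(u : ℝ) * ((G : ℝ) * U * X - p' - Y) - U * ((G : ℝ) * u * X - p - Y)|
        ≤ |(u : ℝ) * ((G : ℝ) * U * X - p' - Y)| + |U * ((G : ℝ) * u * X - p - Y)| := abs_sub _ _
      _ = u * |(G : ℝ) * U * X - p' - Y| + U * |(G : ℝ) * u * X - p - Y| := by
          rw [abs_mul, abs_mul, abs_of_pos hu', abs_of_pos hU']
      _ < u * t + U * s := by gcongr
      _ = U * s + u * t := by ring
  have b1 := basic x.1 y.1 a.1 a'.1 h1 h3
  have b2 := basic x.2 y.2 a.2 a'.2 h2 h4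
  rcases Nat.lt_or_ge u U with hlt | hge
  · -- u < U
    rw [max_eq_right hlt.le, min_eq_left hlt.le]
    refine ⟨(u * a'.1 - U * a.1, u * a'.2 - U * a.2), ?_, ?_, ?_⟩
    · rw [Nat.cast_sub hlt.le]
      push_cast
      have : ((U : ℝ) - u) * y.1 - (u * a'.1 - U * a.1) = ((U : ℝ) - u) * y.1 + (U * a.1 - u * a'.1) := by
        ring
      rw [this]; exact b1
    · rw [Nat.cast_sub hlt.le]
      push_cast
      have : ((U : ℝ) - u) * y.2 - (u * a'.2 - U * a.2) = ((U : ℝ) - u) * y.2 + (U * a.2 - u * a'.2) := by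
        ring
      rw [this]; exact b2
    · apply not_parallel C U (by omega) (G * U) (Dvd.intro_left _ rfl) a' ha' (U - u)
      · have : Nat.Coprime (U - u) U := by
          rw [Nat.coprime_self_sub_left hlt.le]; exact hcop
        exact this
      · rw [Nat.cast_sub hlt.le]
        exact ⟨a'.1 - a.1, by push_cast; ring⟩
      · rw [Nat.cast_sub hlt.le]
        exact ⟨a'.2 - a.2, by push_cast; ring⟩
  · have hlt : U < u := by omega
    rw [max_eq_left hge, min_eq_right hge]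
    refine ⟨(U * a.1 - u * a'.1, U * a.2 - u * a'.2), ?_, ?_, ?_⟩
    · rw [Nat.cast_sub hge]
      push_cast
      have : ((u : ℝ) - U) * y.1 - (U * a.1 - u * a'.1) = -(((U : ℝ) - u) * y.1 + (U * a.1 - u * a'.1)) := by
        ring
      rw [this, abs_neg]; exact b1
    · rw [Nat.cast_sub hge]
      push_cast
      have : ((u : ℝ) - U) * y.2 - (U * a.2 - u * a'.2) = -(((U : ℝ) - u) * y.2 + (U * a.2 - u * a'.2)) := by
        ring
      rw [this, abs_neg]; exact b2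
    · apply not_parallel C u (by omega) (G * u) (Dvd.intro_left _ rfl) a ha (u - U)
      · rw [Nat.coprime_self_sub_left hge]; exact hcop.symm
      · rw [Nat.cast_sub hge]
        exact ⟨a.1 - a'.1, by push_cast; ring⟩
      · rw [Nat.cast_sub hge]
        exact ⟨a.2 - a'.2, by push_cast; ring⟩

end Pool.Agent.Q3.NK
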