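import Mathlib

/-!
# Counting `k < w` with `‖k y‖ < δ` in the presence of two independent near vectors
-/

set_option autoImplicit false

namespace Pool.Agent.Q3.NK

theorem card_abs_lt (R : ℝ) (hR : 1 ≤ R) (s : Finset ℤ) (hs : ∀ c ∈ s, |(c : ℝ)| < R) :
    (s.card : ℝ) ≤ 3 * R := by
  have h1 : s ⊆ Finset.Icc (-⌊R⌋) ⌊R⌋ := by
    intro c hc
    have h2 := hs c hc
    rw [abs_lt] at h2
    rw [Finset.mem_Icc]
    constructor
    · have : -c ≤ ⌊R⌋ := Int.le_floor.mpr (by push_cast; linarith)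
      linarith
    · exact Int.le_floor.mpr h2.2.le
  have h2 := Finset.card_le_card h1
  rw [Int.card_Icc] at h2
  have h3 : (1 : ℤ) ≤ ⌊R⌋ := Int.le_floor.mpr (by push_cast; exact hR)
  have h4 : (⌊R⌋ : ℝ) ≤ R := Int.floor_le R
  have h5 : (s.card : ℤ) ≤ 2 * ⌊R⌋ + 1 := by omega
  have h6 : (s.card : ℝ) ≤ 2 * (⌊R⌋ : ℝ) + 1 := by exact_mod_cast h5
  linarith

/-- One fibre. -/
theorem fiber_one (y : ℝ) (v : ℕ) (b : ℤ) (hcop : IsCoprime (v : ℤ) b) (hv : 1 ≤ v) (w : ℕ)
    (δ : ℝ) (m : ℕ → ℤ) (c : ℤ) (F : Finset ℕ) (hFw : ∀ k ∈ F, k < w)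
    (hm : ∀ k ∈ F, |(k : ℝ) * y - m k| < δ) (hc : ∀ k ∈ F, (v : ℤ) * m k - k * b = c)
    (X : ℝ) (hX0 : 0 ≤ X)
    (hX : ∀ j : ℕ, (j : ℝ) * v < w → (j : ℝ) * |v * y - b| < 2 * δ → (j : ℝ) ≤ X) :
    (F.card : ℝ) ≤ X + 1 := by
  rcases F.eq_empty_or_nonempty with h | hne
  · subst h; simp; linarith
  set k0 := F.min' hne with hk0
  have hk0F : k0 ∈ F := F.min'_mem hne
  have key : ∀ k ∈ F, ∃ j : ℕ, k = k0 + j * v ∧ (j : ℝ) ≤ X := by
    intro k hk
    have hle : k0 ≤ k := F.min'_le k hk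
    have h1 : (v : ℤ) * (m k - m k0) = ((k : ℤ) - k0) * b := by
      have e1 := hc k hk
      have e2 := hc k0 hk0F
      linear_combination e1 - e2
    have h2 : (v : ℤ) ∣ ((k : ℤ) - k0) := by
      apply hcop.dvd_of_dvd_mul_right
      exact ⟨_, h1.symm⟩
    obtain ⟨j', hj'⟩ := h2
    have hj0 : 0 ≤ j' := by
      by_contra hcon
      push Not at hcon
      have : (0 : ℤ) ≤ (k : ℤ) - k0 := by omega
      have hv' : (1 : ℤ) ≤ v := by exact_mod_cast hv
      nlinarith
    obtain ⟨j, rfl⟩ := Int.eq_ofNat_of_zero_le hj0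
    refine ⟨j, ?_, ?_⟩
    · have : (k : ℤ) = k0 + j * v := by linarith
      exact_mod_cast this
    · apply hX
      · have h3 : (k : ℤ) = k0 + j * v := by linarith
        have h4 : ((k : ℕ) : ℝ) = k0 + j * v := by exact_mod_cast h3
        have h5 : (k : ℝ) < w := by exact_mod_cast hFw k hk
        have h6 : (0 : ℝ) ≤ k0 := by positivity
        linarith
      · have hmm : m k - m k0 = j * b := by
          have hv' : (v : ℤ) ≠ 0 := by
            have : (1 : ℤ) ≤ v := by exact_mod_cast hv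
            omega
          have : (v : ℤ) * (m k - m k0) = v * (j * b) := by rw [h1, hj']; ring
          exact mul_left_cancel₀ hv' this
        have h7 : (j : ℝ) * (v * y - b) = (k * y - m k) - (k0 * y - m k0) := by
          have e1 : ((m k : ℤ) : ℝ) - m k0 = j * b := by exact_mod_cast hmm
          have e2 : (k : ℝ) - k0 = v * j := by exact_mod_cast hj'
          linear_combination (-y) * e2 + e1
        have h8 : |(j : ℝ) * (v * y - b)| < 2 * δ := by
          rw [h7]
          calc |((k : ℝ) * y - m k) - (k0 * y - m k0)| ≤ |(k : ℝ) * y - m k| + |(k0 : ℝ) * y - m k0| :=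
                abs_sub _ _
            _ < δ + δ := add_lt_add (hm k hk) (hm k0 hk0F)
            _ = 2 * δ := by ring
        rwa [abs_mul, abs_of_nonneg (by positivity : (0 : ℝ) ≤ j)] at h8
  have hsub : F ⊆ (Finset.range (⌊X⌋₊ + 1)).image (fun j => k0 + j * v) := by
    intro k hk
    obtain ⟨j, hj1, hj2⟩ := key k hk
    rw [Finset.mem_image]
    refine ⟨j, ?_, hj1.symm⟩
    rw [Finset.mem_range]
    have := Nat.le_floor hj2
    omega
  have h1 := (Finset.card_le_card hsub).trans Finset.card_image_le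
  rw [Finset.card_range] at h1
  have h2 : (F.card : ℝ) ≤ (⌊X⌋₊ : ℝ) + 1 := by exact_mod_cast h1
  have h3 := Nat.floor_le hX0
  linarith

/-- The counting lemma. -/
theorem fiber_lemma (y : ℝ) (v : ℕ) (b : ℤ) (hcop : IsCoprime (v : ℤ) b) (hv : 1 ≤ v) (w : ℕ)
    (δ : ℝ) (hδ : 0 < δ) (hvw : v ≤ w) (hζ : |v * y - b| ≤ δ)
    (hR : 1 ≤ v * δ + w * |v * y - b|) (S : Finset ℕ) (hS : ∀ k ∈ S, k < w) (m : ℕ → ℤ)
    (hm : ∀ k ∈ S, |(k : ℝ) * y - m k| < δ) : (S.card : ℝ) ≤ 15 * w * δ := by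
  set ζ := |v * y - b| with hζdef
  have hζ0 : 0 ≤ ζ := abs_nonneg _
  have hv' : (1 : ℝ) ≤ v := by exact_mod_cast hv
  have hvw' : (v : ℝ) ≤ w := by exact_mod_cast hvw
  have hw0 : (0 : ℝ) < w := by linarith
  set R : ℝ := v * δ + w * ζ with hRdef
  -- the constant X
  obtain ⟨X, hX0, hX1, hX2, hX3⟩ : ∃ X : ℝ, 0 ≤ X ∧ v * X ≤ w ∧ ζ * X ≤ 2 * δ ∧
      ∀ j : ℕ, (j : ℝ) * v < w → (j : ℝ) * ζ < 2 * δ → (j : ℝ) ≤ X := by
    rcases hζ0.lt_or_eq with h | h
    · refine ⟨min ((w : ℝ) / v) (2 * δ / ζ), by positivity, ?_, ?_, ?_⟩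
      · calc (v : ℝ) * min ((w : ℝ) / v) (2 * δ / ζ) ≤ v * ((w : ℝ) / v) := by
              gcongr; exact min_le_left _ _
          _ = w := by field_simp
      · calc ζ * min ((w : ℝ) / v) (2 * δ / ζ) ≤ ζ * (2 * δ / ζ) := by
              gcongr; exact min_le_right _ _
          _ = 2 * δ := by field_simp
      · intro j h1 h2
        rw [le_min_iff]
        constructor
        · rw [le_div_iff₀ (by linarith)]; exact h1.le
        · rw [le_div_iff₀ h]; exact h2.le
    · refine ⟨w / v, by positivity, ?_, ?_, ?_⟩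
      · exact (by field_simp : (v : ℝ) * (w / v) = w).le
      · rw [← h, zero_mul]; positivity
      · intro j h1 _
        rw [le_div_iff₀ (by linarith)]; exact h1.le
  set f : ℕ → ℤ := fun k => (v : ℤ) * m k - k * b with hf
  -- bound on the number of values
  have himg : ((S.image f).card : ℝ) ≤ 3 * R := by
    apply card_abs_lt R hR
    intro c hc
    rw [Finset.mem_image] at hc
    obtain ⟨k, hk, rfl⟩ := hc
    have h1 : ((f k : ℤ) : ℝ) = k * (v * y - b) - v * (k * y - m k) := by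
      simp only [hf]
      push_cast
      ring
    rw [h1]
    have hkw : (k : ℝ) ≤ w := by exact_mod_cast (hS k hk).le
    calc |(k : ℝ) * (v * y - b) - v * (k * y - m k)| ≤ |(k : ℝ) * (v * y - b)| + |v * (k * y - m k)| :=
          abs_sub _ _
      _ = k * ζ + v * |k * y - m k| := by
          rw [abs_mul, abs_mul, abs_of_nonneg (by positivity : (0 : ℝ) ≤ k),
            abs_of_nonneg (by positivity : (0 : ℝ) ≤ v)]
      _ < w * ζ + v * δ := by
          have h2 := hm k hk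
          have h3 : (k : ℝ) * ζ ≤ w * ζ := by gcongr
          have h4 : (v : ℝ) * |k * y - m k| < v * δ := by gcongr
          linarith
      _ = R := by rw [hRdef]; ring
  -- bound on the fibres
  have hfib : ∀ c ∈ S.image f, (((S.filter (fun k => f k = c)).card : ℕ) : ℝ) ≤ X + 1 := by
    intro c _
    apply fiber_one y v b hcop hv w δ m c
    · intro k hk; exact hS k (Finset.mem_filter.mp hk).1
    · intro k hk; exact hm k (Finset.mem_filter.mp hk).1
    · intro k hk; exact (Finset.mem_filter.mp hk).2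
    · exact hX0
    · exact hX3
  have hcard : (S.card : ℝ) ≤ (X + 1) * (S.image f).card := by
    have h1 : S.card = ∑ c ∈ S.image f, (S.filter (fun k => f k = c)).card :=
      Finset.card_eq_sum_card_image f S
    calc (S.card : ℝ) = ∑ c ∈ S.image f, (((S.filter (fun k => f k = c)).card : ℕ) : ℝ) := by
          rw [h1]; push_cast; rfl
      _ ≤ ∑ c ∈ S.image f, (X + 1) := Finset.sum_le_sum hfib
      _ = (X + 1) * (S.image f).card := by rw [Finset.sum_const, nsmul_eq_mul]; ring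
  have hRX : R * X ≤ 3 * w * δ := by
    have : R * X = (v * X) * δ + w * (ζ * X) := by rw [hRdef]; ring
    rw [this]
    have h1 : (v * X) * δ ≤ w * δ := by gcongr
    have h2 : w * (ζ * X) ≤ w * (2 * δ) := by gcongr
    linarith
  have hR2 : R ≤ 2 * w * δ := by
    have h1 : (v : ℝ) * δ ≤ w * δ := by gcongr
    have h2 : (w : ℝ) * ζ ≤ w * δ := by gcongr
    linarith
  calc (S.card : ℝ) ≤ (X + 1) * (S.image f).card := hcard
    _ ≤ (X + 1) * (3 * R) := by gcongr
    _ = 3 * (R * X) + 3 * R := by ring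
    _ ≤ 3 * (3 * w * δ) + 3 * (2 * w * δ) := by gcongr
    _ = 15 * w * δ := by ring

end Pool.Agent.Q3.NK
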