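import Mathlib

/-!
# Overlap estimates in dimension one
-/

set_option autoImplicit false

open MeasureTheory

namespace Pool.Agent.Q3.NK

/-- The integers in an open interval, as a finset with a bound on the cardinality. -/
theorem ints_in (lo hi : ℝ) (h : lo ≤ hi) : ∃ F : Finset ℤ, (∀ j : ℤ, lo < j → (j : ℝ) < hi → j ∈ F) ∧
    (F.card : ℝ) < hi - lo + 1 := by
  refine ⟨Finset.Icc (⌊lo⌋ + 1) (⌈hi⌉ - 1), ?_, ?_⟩
  · intro j h1 h2
    rw [Finset.mem_Icc]
    constructor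
    · have := Int.floor_lt.mpr h1
      omega
    · have := Int.lt_ceil.mpr h2
      omega
  · rw [Int.card_Icc]
    have h1 := Int.lt_floor_add_one lo
    have h2 := Int.ceil_lt_add_one hi
    have h3 : ((⌈hi⌉ - 1 + 1 - (⌊lo⌋ + 1)).toNat : ℝ) = max ((⌈hi⌉ - 1 + 1 - (⌊lo⌋ + 1) : ℤ) : ℝ) 0 := by
      have : (((⌈hi⌉ - 1 + 1 - (⌊lo⌋ + 1)).toNat : ℤ) : ℝ) =
          ((max (⌈hi⌉ - 1 + 1 - (⌊lo⌋ + 1)) 0 : ℤ) : ℝ) := by
        rw [Int.toNat_eq_max]
      push_cast at this ⊢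
      exact this
    rw [h3]
    apply max_lt
    · push_cast; linarith
    · linarith

theorem vol_interval (q s y : ℝ) (hq : 0 < q) (a : ℤ) :
    volume {x : ℝ | |q * x - a - y| < s} ≤ ENNReal.ofReal (2 * s / q) := by
  have : {x : ℝ | |q * x - a - y| < s} ⊆ Set.Ioo ((a + y - s) / q) ((a + y + s) / q) := by
    intro x hx
    rw [Set.mem_ofPred_eq, abs_lt] at hx
    constructor
    · rw [div_lt_iff₀ hq]; linarith
    · rw [lt_div_iff₀ hq]; linarith
  refine (measure_mono this).trans ?_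
  rw [Real.volume_Ioo]
  apply ENNReal.ofReal_le_ofReal
  apply le_of_eq
  ring

theorem vol_class (y s : ℝ) (hs0 : 0 ≤ s) (hs : s ≤ 1 / 2) (G u : ℕ) (hG : 1 ≤ G) (hu : 1 ≤ u)
    (c : ℤ) : volume {x : ℝ | x ∈ Set.Icc (0 : ℝ) 1 ∧ ∃ a : ℤ, (u : ℤ) ∣ a - c ∧
      |((G * u : ℕ) : ℝ) * x - a - y| < s} ≤ ENNReal.ofReal (6 * (s / u)) := by
  have hu0 : (1 : ℝ) ≤ u := by exact_mod_cast hu
  have hG0 : (1 : ℝ) ≤ G := by exact_mod_cast hG
  have hq0 : (0 : ℝ) < ((G * u : ℕ) : ℝ) := by push_cast; positivity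
  set q : ℝ := ((G * u : ℕ) : ℝ) with hq
  have hqe : q = G * u := by rw [hq]; push_cast; ring
  obtain ⟨F, hF1, hF2⟩ := ints_in ((-y - s - c) / u) ((q - y + s - c) / u) (by
    apply div_le_div_of_nonneg_right _ (by linarith)
    linarith)
  have hcard : (F.card : ℝ) ≤ 3 * G := by
    have h1 : (q - y + s - c) / u - (-y - s - c) / u = G + 2 * s / u := by
      rw [hqe]; field_simp; ring
    rw [h1] at hF2
    have h2 : 2 * s / u ≤ 1 := by
      rw [div_le_one (by linarith)]; linarith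
    linarith
  have hsub : {x : ℝ | x ∈ Set.Icc (0 : ℝ) 1 ∧ ∃ a : ℤ, (u : ℤ) ∣ a - c ∧ |q * x - a - y| < s} ⊆
      ⋃ j ∈ F, {x : ℝ | |q * x - ((c + u * j : ℤ) : ℝ) - y| < s} := by
    rintro x ⟨⟨hx0, hx1⟩, a, ⟨j, hj⟩, ha⟩
    have haj : a = c + u * j := by linarith
    subst haj
    simp only [Set.mem_iUnion]
    refine ⟨j, ?_, ha⟩
    rw [abs_lt] at ha
    push_cast at ha
    have hqx : 0 ≤ q * x := by positivity
    have hqx1 : q * x ≤ q := by nlinarith
    apply hF1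
    · rw [div_lt_iff₀ (by linarith)]; linarith [ha.2]
    · rw [lt_div_iff₀ (by linarith)]; linarith [ha.1]
  refine (measure_mono hsub).trans ((measure_biUnion_finset_le _ _).trans ?_)
  calc ∑ j ∈ F, volume {x : ℝ | |q * x - ((c + u * j : ℤ) : ℝ) - y| < s}
      ≤ ∑ j ∈ F, ENNReal.ofReal (2 * s / q) :=
        Finset.sum_le_sum (fun j _ => vol_interval q s y hq0 _)
    _ = ENNReal.ofReal (F.card * (2 * s / q)) := by
        rw [Finset.sum_const, nsmul_eq_mul, ENNReal.ofReal_mul (by positivity),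
          ENNReal.ofReal_natCast]
    _ ≤ ENNReal.ofReal (6 * (s / u)) := by
        apply ENNReal.ofReal_le_ofReal
        calc (F.card : ℝ) * (2 * s / q) ≤ (3 * G) * (2 * s / q) := by gcongr
          _ = 6 * (s / u) := by rw [hqe]; field_simp; ring

/-- The one dimensional overlap. -/
def OD (y : ℝ) (q Q : ℕ) (s t : ℝ) : Set ℝ :=
  {x | x ∈ Set.Icc (0 : ℝ) 1 ∧ ∃ a a' : ℤ, |(q : ℝ) * x - a - y| < s ∧ |(Q : ℝ) * x - a' - y| < t}

theorem vol_OD (y s t : ℝ) (hs0 : 0 ≤ s) (hs : s ≤ 1 / 2) (ht0 : 0 ≤ t) (ht : t ≤ 1 / 2)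
    (G u U : ℕ) (hG : 1 ≤ G) (hu : 1 ≤ u) (hU : 1 ≤ U) (hcop : Nat.Coprime u U) :
    ∃ n : ℕ, (n : ℝ) < 2 * (U * s + u * t) + 1 ∧
      volume (OD y (G * u) (G * U) s t) ≤ ENNReal.ofReal (n * (6 * min (s / u) (t / U))) := by
  have hu0 : (1 : ℝ) ≤ u := by exact_mod_cast hu
  have hU0 : (1 : ℝ) ≤ U := by exact_mod_cast hU
  set δ : ℝ := U * s + u * t with hδ
  have hδ0 : 0 ≤ δ := by positivity
  obtain ⟨M, hM1, hM2⟩ := ints_in (-(((U : ℝ) - u) * y) - δ) (-(((U : ℝ) - u) * y) + δ) (by linarith)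
  refine ⟨M.card, by linarith, ?_⟩
  -- Bezout
  obtain ⟨α, β, hαβ⟩ : IsCoprime (U : ℤ) (u : ℤ) := Nat.isCoprime_iff_coprime.mpr hcop.symm
  have hsub : OD y (G * u) (G * U) s t ⊆ ⋃ m ∈ M,
      ({x : ℝ | x ∈ Set.Icc (0 : ℝ) 1 ∧ ∃ a : ℤ, (u : ℤ) ∣ a - α * m ∧
        |((G * u : ℕ) : ℝ) * x - a - y| < s} ∩
      {x : ℝ | x ∈ Set.Icc (0 : ℝ) 1 ∧ ∃ a : ℤ, (U : ℤ) ∣ a - (-β * m) ∧
        |((G * U : ℕ) : ℝ) * x - a - y| < t}) := by
    rintro x ⟨hx, a, a', ha, ha'⟩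
    simp only [Set.mem_iUnion]
    have h1 : |((U : ℝ) - u) * y + (U * a - u * a')| < δ := by
      have e3 : ((U : ℝ) - u) * y + (U * a - u * a') =
          u * (((G * U : ℕ) : ℝ) * x - a' - y) - U * (((G * u : ℕ) : ℝ) * x - a - y) := by
        push_cast; ring
      rw [e3]
      calc |(u : ℝ) * (((G * U : ℕ) : ℝ) * x - a' - y) - U * (((G * u : ℕ) : ℝ) * x - a - y)|
          ≤ |(u : ℝ) * (((G * U : ℕ) : ℝ) * x - a' - y)| + |U * (((G * u : ℕ) : ℝ) * x - a - y)| :=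
            abs_sub _ _
        _ = u * |((G * U : ℕ) : ℝ) * x - a' - y| + U * |((G * u : ℕ) : ℝ) * x - a - y| := by
            rw [abs_mul, abs_mul, abs_of_pos (by linarith : (0 : ℝ) < u),
              abs_of_pos (by linarith : (0 : ℝ) < U)]
        _ < u * t + U * s := by gcongr
        _ = δ := by rw [hδ]; ring
    rw [abs_lt] at h1
    refine ⟨U * a - u * a', ?_, ⟨hx, a, ?_, ha⟩, ⟨hx, a', ?_, ha'⟩⟩
    · apply hM1
      · push_cast; linarith [h1.1]
      · push_cast; linarith [h1.2]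
    · refine ⟨α * a' + β * a, ?_⟩
      linear_combination (-a) * hαβ
    · refine ⟨α * a' + β * a, ?_⟩
      linear_combination (-a') * hαβ
  refine (measure_mono hsub).trans ((measure_biUnion_finset_le _ _).trans ?_)
  calc _ ≤ ∑ m ∈ M, ENNReal.ofReal (6 * min (s / u) (t / U)) := by
        apply Finset.sum_le_sum
        intro m _
        have h6 : (6 : ℝ) * min (s / u) (t / U) = min (6 * (s / u)) (6 * (t / U)) := by
          rw [mul_min_of_nonneg _ _ (by norm_num)]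
        rw [h6, ENNReal.ofReal_min]
        apply le_min
        · exact (measure_mono Set.inter_subset_left).trans (vol_class y s hs0 hs G u hG hu _)
        · exact (measure_mono Set.inter_subset_right).trans (vol_class y t ht0 ht G U hG hU _)
    _ = ENNReal.ofReal (M.card * (6 * min (s / u) (t / U))) := by
        rw [Finset.sum_const, nsmul_eq_mul, ENNReal.ofReal_mul (p := (M.card : ℝ)) (by positivity),
          ENNReal.ofReal_natCast]

theorem vol_OD_large (y s t : ℝ) (hs0 : 0 ≤ s) (hs : s ≤ 1 / 2) (ht0 : 0 ≤ t) (ht : t ≤ 1 / 2)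
    (G u U : ℕ) (hG : 1 ≤ G) (hu : 1 ≤ u) (hU : 1 ≤ U) (hcop : Nat.Coprime u U)
    (hδ : 1 / 2 ≤ U * s + u * t) :
    volume (OD y (G * u) (G * U) s t) ≤ ENNReal.ofReal (48 * (s * t)) := by
  obtain ⟨n, hn, hv⟩ := vol_OD y s t hs0 hs ht0 ht G u U hG hu hU hcop
  have hu0 : (1 : ℝ) ≤ u := by exact_mod_cast hu
  have hU0 : (1 : ℝ) ≤ U := by exact_mod_cast hU
  refine hv.trans (ENNReal.ofReal_le_ofReal ?_)
  have hn' : (n : ℝ) ≤ 4 * (U * s + u * t) := by linarith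
  have hmin : (U * s + u * t) * min (s / u) (t / U) ≤ 2 * (s * t) := by
    rw [add_mul]
    have h1 : U * s * min (s / u) (t / U) ≤ U * s * (t / U) := by
      gcongr; exact min_le_right _ _
    have h2 : u * t * min (s / u) (t / U) ≤ u * t * (s / u) := by
      gcongr; exact min_le_left _ _
    have h3 : U * s * (t / U) = s * t := by field_simp
    have h4 : u * t * (s / u) = s * t := by field_simp
    linarith
  have hmin0 : 0 ≤ min (s / u) (t / U) := by positivity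
  calc (n : ℝ) * (6 * min (s / u) (t / U)) ≤ 4 * (U * s + u * t) * (6 * min (s / u) (t / U)) := by
        gcongr
    _ = 24 * ((U * s + u * t) * min (s / u) (t / U)) := by ring
    _ ≤ 24 * (2 * (s * t)) := by gcongr
    _ = 48 * (s * t) := by ring

theorem vol_OD_small (y s t : ℝ) (hs0 : 0 ≤ s) (hst : s ≤ t) (ht : t ≤ 1 / 2)
    (G u U : ℕ) (hG : 1 ≤ G) (hu : 1 ≤ u) (hU : 1 ≤ U) (hcop : Nat.Coprime u U)
    (hδ : U * s + u * t < 1 / 2) :
    volume (OD y (G * u) (G * U) s t) ≤ ENNReal.ofReal (6 * (t / (max u U : ℕ))) := by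
  obtain ⟨n, hn, hv⟩ := vol_OD y s t hs0 (hst.trans ht) (hs0.trans hst) ht G u U hG hu hU hcop
  have hu0 : (1 : ℝ) ≤ u := by exact_mod_cast hu
  have hU0 : (1 : ℝ) ≤ U := by exact_mod_cast hU
  have ht0 : 0 ≤ t := hs0.trans hst
  refine hv.trans (ENNReal.ofReal_le_ofReal ?_)
  have hn1 : n ≤ 1 := by
    have : (n : ℝ) < 2 := by linarith
    have : n < 2 := by exact_mod_cast this
    omega
  have hn' : (n : ℝ) ≤ 1 := by exact_mod_cast hn1
  have hmin0 : 0 ≤ min (s / u) (t / U) := by positivity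
  have hmin : min (s / u) (t / U) ≤ t / (max u U : ℕ) := by
    rcases max_choice u U with h | h <;> rw [h]
    · exact (min_le_left _ _).trans (by gcongr)
    · exact min_le_right _ _
  calc (n : ℝ) * (6 * min (s / u) (t / U)) ≤ 1 * (6 * min (s / u) (t / U)) := by gcongr
    _ ≤ 6 * (t / (max u U : ℕ)) := by linarith

end Pool.Agent.Q3.NK
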