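import Mathlib
import Pool.Agent.Q3.NK.Fiber
import Pool.Agent.Q3.NK.Adm

/-!
# The sum over the dangerous pairs
-/

set_option autoImplicit false

namespace Pool.Agent.Q3.NK

theorem sum_inv_sq (a b : ℕ) (ha : 1 ≤ a) :
    ∑ w ∈ Finset.Ico a b, 1 / (w : ℝ) ^ 2 ≤ 1 / ((a : ℝ) - 1 / 2) := by
  have ha' : (1 : ℝ) ≤ a := by exact_mod_cast ha
  rcases Nat.lt_or_ge b a with hab | hab
  · rw [Finset.Ico_eq_empty (by omega), Finset.sum_empty]
    apply div_nonneg <;> linarith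
  have key : ∀ n : ℕ, a ≤ n → ∑ w ∈ Finset.Ico a n, 1 / (w : ℝ) ^ 2 ≤
      1 / ((a : ℝ) - 1 / 2) - 1 / ((n : ℝ) - 1 / 2) := by
    intro n hn
    induction n, hn using Nat.le_induction with
    | base => simp
    | succ n hn ih =>
      rw [Finset.sum_Ico_succ_top hn]
      have hn' : (1 : ℝ) ≤ n := by
        have : 1 ≤ n := by omega
        exact_mod_cast this
      have h1 : 1 / (n : ℝ) ^ 2 ≤ 1 / ((n : ℝ) - 1 / 2) - 1 / (((n + 1 : ℕ) : ℝ) - 1 / 2) := by
        push_cast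
        rw [div_sub_div _ _ (by linarith) (by linarith), div_le_div_iff₀ (by positivity)
          (mul_pos (by linarith) (by linarith))]
        nlinarith
      linarith
  refine (key b hab).trans ?_
  have : 0 ≤ 1 / ((b : ℝ) - 1 / 2) := by
    have : (1 : ℝ) ≤ b := by
      have : 1 ≤ b := by omega
      exact_mod_cast this
    apply div_nonneg <;> linarith
  linarith

theorem count_coord (Y : ℝ) (V : ℕ) (b : ℤ) (w : ℕ) (δ : ℝ) (hδ : 0 < δ) (hV1 : 1 ≤ V)
    (hVw : V < w) (hζ : |V * Y - b| ≤ δ) (k0 : ℕ) (m0 : ℤ) (hk0w : k0 < w)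
    (hk0δ : |(k0 : ℝ) * Y - m0| < δ) (hne : (V : ℤ) * m0 ≠ k0 * b) (S : Finset ℕ)
    (hS : ∀ k ∈ S, k < w) (hm : ∀ k ∈ S, ∃ m : ℤ, |(k : ℝ) * Y - m| < δ) :
    (S.card : ℝ) ≤ 15 * w * δ := by
  classical
  set g : ℕ := Int.gcd V b with hg
  obtain ⟨v', hv'⟩ : (g : ℤ) ∣ V := Int.gcd_dvd_left _ _
  obtain ⟨c, hc⟩ : (g : ℤ) ∣ b := Int.gcd_dvd_right _ _
  have hg1 : 1 ≤ g := by
    rcases Nat.eq_zero_or_pos g with h | h
    · rw [h] at hv'
      simp at hv'
      omega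
    · exact h
  have hv'0 : 0 < v' := by
    by_contra hcon
    push Not at hcon
    have : (1 : ℤ) ≤ V := by exact_mod_cast hV1
    have : (1 : ℤ) ≤ g := by exact_mod_cast hg1
    nlinarith
  obtain ⟨v, rfl⟩ := Int.eq_ofNat_of_zero_le hv'0.le
  have hv1 : 1 ≤ v := by exact_mod_cast hv'0
  have hVv : V = g * v := by exact_mod_cast hv'
  have hcop : IsCoprime (v : ℤ) c := by
    rw [Int.isCoprime_iff_gcd_eq_one]
    have h1 : Int.gcd ((g : ℤ) * v) (g * c) = g * Int.gcd v c := by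
      rw [Int.gcd_mul_left]; simp
    rw [← hv', ← hc, ← hg] at h1
    have : g * 1 = g * Int.gcd v c := by rw [mul_one]; exact h1
    exact (Nat.eq_of_mul_eq_mul_left hg1 this).symm
  have hgr : (1 : ℝ) ≤ g := by exact_mod_cast hg1
  have hζeq : |(V : ℝ) * Y - b| = g * |v * Y - c| := by
    have h5 : (V : ℝ) * Y - b = (g : ℝ) * (v * Y - c) := by
      rw [hVv, hc]; push_cast; ring
    rw [h5, abs_mul, abs_of_nonneg (by positivity : (0 : ℝ) ≤ g)]
  have hζ' : |(v : ℝ) * Y - c| ≤ δ := by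
    have := abs_nonneg ((v : ℝ) * Y - c)
    rw [hζeq] at hζ
    nlinarith
  have hne' : (v : ℤ) * m0 - k0 * c ≠ 0 := by
    intro h
    apply hne
    rw [hv', hc]
    linear_combination (g : ℤ) * h
  have hR : 1 ≤ v * δ + w * |(v : ℝ) * Y - c| := by
    have h1 : (1 : ℝ) ≤ |(v : ℝ) * m0 - k0 * c| := by
      have : (1 : ℤ) ≤ |(v : ℤ) * m0 - k0 * c| := Int.one_le_abs hne'
      exact_mod_cast this
    have h2 : (v : ℝ) * m0 - k0 * c = k0 * (v * Y - c) - v * (k0 * Y - m0) := by ring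
    rw [h2] at h1
    have h3 : |(k0 : ℝ) * (v * Y - c) - v * (k0 * Y - m0)| ≤
        k0 * |v * Y - c| + v * |k0 * Y - m0| := by
      refine (abs_sub _ _).trans (le_of_eq ?_)
      rw [abs_mul, abs_mul, abs_of_nonneg (by positivity : (0 : ℝ) ≤ k0),
        abs_of_nonneg (by positivity : (0 : ℝ) ≤ v)]
    have h4 : (k0 : ℝ) ≤ w := by exact_mod_cast hk0w.le
    have h5 : (k0 : ℝ) * |v * Y - c| ≤ w * |v * Y - c| := by gcongr
    have h6 : (v : ℝ) * |k0 * Y - m0| ≤ v * δ := by gcongr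
    linarith
  choose! m hm' using hm
  have hvw : v ≤ w := by
    have : v ≤ V := by rw [hVv]; exact Nat.le_mul_of_pos_left _ hg1
    omega
  exact fiber_lemma Y v c hcop hv1 w δ hδ hvw hζ' hR S hS m hm'

/-- The near relation. -/
def Near {y : ℝ × ℝ} (C : Choice y) (Ψ : ℝ) (w k : ℕ) : Prop :=
  ∃ m : ℤ × ℤ, |(k : ℝ) * y.1 - m.1| < 2 * w * Ψ ∧ |(k : ℝ) * y.2 - m.2| < 2 * w * Ψ ∧
    ¬ ((C.V w : ℤ) * m.1 = (k : ℤ) * (C.B w).1 ∧ (C.V w : ℤ) * m.2 = (k : ℤ) * (C.B w).2)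

theorem count_near {y : ℝ × ℝ} (C : Choice y) (Ψ : ℝ) (hΨ : 0 < Ψ) (w : ℕ) (hw : 2 ≤ w)
    (S : Finset ℕ) (hS : ∀ k ∈ S, 1 ≤ k ∧ k < w ∧ Near C Ψ w k) :
    (S.card : ℝ) ≤ 30 * w ^ 2 * Ψ := by
  rcases S.eq_empty_or_nonempty with h | ⟨k0, hk0⟩
  · subst h; simp; positivity
  have hw0 : (0 : ℝ) < w := by
    have : 0 < w := by omega
    exact_mod_cast this
  obtain ⟨h1, h2, m0, h3, h4, h5⟩ := hS k0 hk0
  have hδ : (0 : ℝ) < 2 * w * Ψ := by positivity
  have herr : err y (C.V w) (C.B w) ≤ 2 * w * Ψ := by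
    refine (C.min w hw k0 h1 h2 m0).trans ?_
    unfold err
    exact (max_lt h3 h4).le
  unfold err at herr
  rw [max_le_iff] at herr
  have hfin : (15 : ℝ) * w * (2 * w * Ψ) = 30 * w ^ 2 * Ψ := by ring
  rw [← hfin]
  by_cases h6 : (C.V w : ℤ) * m0.1 = (k0 : ℤ) * (C.B w).1
  · have h7 : (C.V w : ℤ) * m0.2 ≠ (k0 : ℤ) * (C.B w).2 := fun h => h5 ⟨h6, h⟩
    exact count_coord y.2 (C.V w) (C.B w).2 w _ hδ (C.pos w hw) (C.lt w hw) herr.2 k0 m0.2 h2 h4 h7
      S (fun k hk => (hS k hk).2.1) (fun k hk => by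
        obtain ⟨_, _, m, _, h, _⟩ := hS k hk
        exact ⟨m.2, h⟩)
  · exact count_coord y.1 (C.V w) (C.B w).1 w _ hδ (C.pos w hw) (C.lt w hw) herr.1 k0 m0.1 h2 h3 h6
      S (fun k hk => (hS k hk).2.1) (fun k hk => by
        obtain ⟨_, _, m, h, _, _⟩ := hS k hk
        exact ⟨m.1, h⟩)

/-- The sum over dangerous pairs `(U,u)`. -/
theorem sum_pairs {y : ℝ × ℝ} (C : Choice y) (Ψ : ℝ) (hΨ : 0 < Ψ) (hΨ1 : Ψ ≤ 1 / 4)
    (T : Finset (ℕ × ℕ))
    (hT : ∀ p ∈ T, 1 ≤ p.1 ∧ 1 ≤ p.2 ∧ p.1 ≠ p.2 ∧ (p.2 : ℝ) * Ψ < 1 / 2 ∧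
      Near C Ψ (max p.2 p.1) (max p.2 p.1 - min p.2 p.1)) :
    ∑ p ∈ T, 1 / ((max p.2 p.1 : ℕ) : ℝ) ^ 2 ≤ 32 := by
  classical
  obtain ⟨N, hN⟩ : ∃ N : ℕ, ∀ p ∈ T, max p.2 p.1 < N := by
    refine ⟨(T.sup fun p => max p.2 p.1) + 1, fun p hp => ?_⟩
    have := Finset.le_sup (f := fun p : ℕ × ℕ => max p.2 p.1) hp
    omega
  have hmaps : ∀ p ∈ T, max p.2 p.1 ∈ Finset.Ico 1 N := fun p hp => by
    rw [Finset.mem_Ico]
    have := (hT p hp).1
    exact ⟨by omega, hN p hp⟩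
  rw [← Finset.sum_fiberwise_of_maps_to hmaps]
  set X : ℝ := 1 / (2 * Ψ) with hX
  have hX2 : 2 ≤ X := by
    rw [hX, le_div_iff₀ (by positivity)]; linarith
  have hXΨ : X * Ψ = 1 / 2 := by rw [hX]; field_simp
  -- inner sums
  have hinner : ∀ w ∈ Finset.Ico 1 N, ∑ p ∈ T with max p.2 p.1 = w, 1 / ((max p.2 p.1 : ℕ) : ℝ) ^ 2 ≤
      if (w : ℝ) ≤ X then 60 * Ψ else X / (w : ℝ) ^ 2 := by
    intro w hw
    rw [Finset.mem_Ico] at hw
    have hw0 : (0 : ℝ) < w := by
      have : 0 < w := by omega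
      exact_mod_cast this
    have h1 : ∑ p ∈ T with max p.2 p.1 = w, 1 / ((max p.2 p.1 : ℕ) : ℝ) ^ 2 =
        (T.filter (fun p => max p.2 p.1 = w)).card * (1 / (w : ℝ) ^ 2) := by
      rw [← nsmul_eq_mul, ← Finset.sum_const]
      apply Finset.sum_congr rfl
      intro p hp
      rw [(Finset.mem_filter.mp hp).2]
    rw [h1]
    set Tw := T.filter (fun p => max p.2 p.1 = w) with hTw
    have hTw' : ∀ p ∈ Tw, p ∈ T ∧ max p.2 p.1 = w := fun p hp => Finset.mem_filter.mp hp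
    -- w ≥ 2 if nonempty
    rcases Tw.eq_empty_or_nonempty with hemp | ⟨p0, hp0⟩
    · rw [hemp]
      simp only [Finset.card_empty, Nat.cast_zero, zero_mul]
      split_ifs <;> positivity
    have hw2 : 2 ≤ w := by
      obtain ⟨h2, h3⟩ := hTw' p0 hp0
      obtain ⟨h4, h5, h6, _⟩ := hT p0 h2
      rcases Nat.lt_or_ge p0.1 p0.2 with h | h
      · rw [max_eq_left h.le] at h3; omega
      · rw [max_eq_right h] at h3; omega
    split_ifs with hcase
    · -- w ≤ X
      have hA : ((Tw.filter (fun p => p.1 = w)).card : ℝ) ≤ 30 * w ^ 2 * Ψ := by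
        have hinj : ((Tw.filter (fun p => p.1 = w)).image (fun p => w - p.2)).card =
            (Tw.filter (fun p => p.1 = w)).card := by
          apply Finset.card_image_of_injOn
          intro p hp q hq hpq
          simp only [Finset.coe_filter, Set.mem_setOf_eq] at hp hq
          have e1 := (hTw' p hp.1).2
          have e2 := (hTw' q hq.1).2
          have e3 : p.2 ≤ w := by rw [← e1]; exact le_max_left _ _
          have e4 : q.2 ≤ w := by rw [← e2]; exact le_max_left _ _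
          simp only at hpq
          apply Prod.ext
          · rw [hp.2, hq.2]
          · omega
        rw [← hinj]
        apply count_near C Ψ hΨ w hw2
        intro k hk
        rw [Finset.mem_image] at hk
        obtain ⟨p, hp, rfl⟩ := hk
        obtain ⟨hp1, hp2⟩ := Finset.mem_filter.mp hp
        obtain ⟨e1, e2⟩ := hTw' p hp1
        obtain ⟨e3, e4, e5, e6, e7⟩ := hT p e1
        have e8 : p.2 ≤ w := by rw [← e2]; exact le_max_left _ _
        have e9 : p.2 < p.1 := by omega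
        rw [e2] at e7
        rw [min_eq_left e9.le] at e7
        exact ⟨by omega, by omega, e7⟩
      have hB : ((Tw.filter (fun p => ¬ p.1 = w)).card : ℝ) ≤ 30 * w ^ 2 * Ψ := by
        have hinj : ((Tw.filter (fun p => ¬ p.1 = w)).image (fun p => w - p.1)).card =
            (Tw.filter (fun p => ¬ p.1 = w)).card := by
          apply Finset.card_image_of_injOn
          intro p hp q hq hpq
          simp only [Finset.coe_filter, Set.mem_setOf_eq] at hp hq
          have e1 := (hTw' p hp.1).2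
          have e2 := (hTw' q hq.1).2
          have e3 : p.1 ≤ w := by rw [← e1]; exact le_max_right _ _
          have e4 : q.1 ≤ w := by rw [← e2]; exact le_max_right _ _
          have e5 : p.2 = w := by
            rcases max_choice p.2 p.1 with h | h
            · omega
            · exact absurd (by omega) hp.2
          have e6 : q.2 = w := by
            rcases max_choice q.2 q.1 with h | h
            · omega
            · exact absurd (by omega) hq.2
          simp only at hpq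
          apply Prod.ext
          · omega
          · rw [e5, e6]
        rw [← hinj]
        apply count_near C Ψ hΨ w hw2
        intro k hk
        rw [Finset.mem_image] at hk
        obtain ⟨p, hp, rfl⟩ := hk
        obtain ⟨hp1, hp2⟩ := Finset.mem_filter.mp hp
        obtain ⟨e1, e2⟩ := hTw' p hp1
        obtain ⟨e3, e4, e5, e6, e7⟩ := hT p e1
        have e8 : p.1 ≤ w := by rw [← e2]; exact le_max_right _ _
        have e9 : p.1 < p.2 := by
          rcases max_choice p.2 p.1 with h | h <;> omega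
        rw [e2] at e7
        rw [min_eq_right e9.le] at e7
        exact ⟨by omega, by omega, e7⟩
      have hcard : (Tw.card : ℝ) ≤ 60 * w ^ 2 * Ψ := by
        rw [← Finset.card_filter_add_card_filter_not (s := Tw) (fun p => p.1 = w)]
        push_cast
        linarith
      calc (Tw.card : ℝ) * (1 / (w : ℝ) ^ 2) ≤ (60 * w ^ 2 * Ψ) * (1 / (w : ℝ) ^ 2) := by gcongr
        _ = 60 * Ψ := by field_simp
    · -- w > X
      push Not at hcase
      have hcard : (Tw.card : ℝ) ≤ X := by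
        have hsub : Tw ⊆ (Finset.Icc 1 ⌊X⌋₊).image (fun u => (w, u)) := by
          intro p hp
          obtain ⟨e1, e2⟩ := hTw' p hp
          obtain ⟨e3, e4, e5, e6, e7⟩ := hT p e1
          have e8 : (p.2 : ℝ) ≤ X := by
            rw [← hXΨ] at e6
            exact (lt_of_mul_lt_mul_right e6 hΨ.le).le
          have e9 : p.1 = w := by
            rcases max_choice p.2 p.1 with h | h
            · exfalso
              have : (p.2 : ℝ) = w := by rw [← e2, h]
              linarith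
            · omega
          rw [Finset.mem_image]
          refine ⟨p.2, ?_, by rw [← e9]⟩
          rw [Finset.mem_Icc]
          exact ⟨e4, Nat.le_floor e8⟩
        have h2 := (Finset.card_le_card hsub).trans Finset.card_image_le
        rw [Nat.card_Icc] at h2
        have h3 : (Tw.card : ℝ) ≤ (⌊X⌋₊ : ℝ) := by
          have : Tw.card ≤ ⌊X⌋₊ := by omega
          exact_mod_cast this
        exact h3.trans (Nat.floor_le (by linarith))
      calc (Tw.card : ℝ) * (1 / (w : ℝ) ^ 2) ≤ X * (1 / (w : ℝ) ^ 2) := by gcongr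
        _ = X / (w : ℝ) ^ 2 := by ring
  refine (Finset.sum_le_sum hinner).trans ?_
  rw [Finset.sum_ite]
  have h1 : ∑ w ∈ (Finset.Ico 1 N).filter (fun w : ℕ => (w : ℝ) ≤ X), 60 * Ψ ≤ 30 := by
    rw [Finset.sum_const, nsmul_eq_mul]
    have hsub : (Finset.Ico 1 N).filter (fun w : ℕ => (w : ℝ) ≤ X) ⊆ Finset.Icc 1 ⌊X⌋₊ := by
      intro w hw
      obtain ⟨h2, h3⟩ := Finset.mem_filter.mp hw
      rw [Finset.mem_Ico] at h2
      rw [Finset.mem_Icc]
      exact ⟨h2.1, Nat.le_floor h3⟩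
    have h2 := Finset.card_le_card hsub
    rw [Nat.card_Icc] at h2
    have h3 : (((Finset.Ico 1 N).filter (fun w : ℕ => (w : ℝ) ≤ X)).card : ℝ) ≤ X := by
      have h4 : ((Finset.Ico 1 N).filter (fun w : ℕ => (w : ℝ) ≤ X)).card ≤ ⌊X⌋₊ := by omega
      have h5 : (((Finset.Ico 1 N).filter (fun w : ℕ => (w : ℝ) ≤ X)).card : ℝ) ≤ (⌊X⌋₊ : ℝ) := by
        exact_mod_cast h4
      exact h5.trans (Nat.floor_le (by linarith))
    calc _ ≤ X * (60 * Ψ) := by gcongr
      _ = 60 * (X * Ψ) := by ring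
      _ = 30 := by rw [hXΨ]; norm_num
  have h2 : ∑ w ∈ (Finset.Ico 1 N).filter (fun w : ℕ => ¬ (w : ℝ) ≤ X), X / (w : ℝ) ^ 2 ≤ 2 := by
    have hsub : (Finset.Ico 1 N).filter (fun w : ℕ => ¬ (w : ℝ) ≤ X) ⊆
        Finset.Ico (⌊X⌋₊ + 1) N := by
      intro w hw
      obtain ⟨h2, h3⟩ := Finset.mem_filter.mp hw
      rw [Finset.mem_Ico] at h2 ⊢
      push Not at h3
      refine ⟨?_, h2.2⟩
      have : ⌊X⌋₊ < w := (Nat.floor_lt (by linarith)).mpr h3
      omega
    have h3 : ∑ w ∈ (Finset.Ico 1 N).filter (fun w : ℕ => ¬ (w : ℝ) ≤ X), X / (w : ℝ) ^ 2 ≤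
        ∑ w ∈ Finset.Ico (⌊X⌋₊ + 1) N, X / (w : ℝ) ^ 2 :=
      Finset.sum_le_sum_of_subset_of_nonneg hsub (fun w _ _ => by positivity)
    refine h3.trans ?_
    have h4 : ∑ w ∈ Finset.Ico (⌊X⌋₊ + 1) N, X / (w : ℝ) ^ 2 =
        X * ∑ w ∈ Finset.Ico (⌊X⌋₊ + 1) N, 1 / (w : ℝ) ^ 2 := by
      rw [Finset.mul_sum]
      apply Finset.sum_congr rfl
      intro w _
      ring
    rw [h4]
    have h5 := sum_inv_sq (⌊X⌋₊ + 1) N (by omega)
    have h6 : X < (((⌊X⌋₊ + 1 : ℕ)) : ℝ) := by push_cast; exact Nat.lt_floor_add_one X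
    have h7 : 1 / ((((⌊X⌋₊ + 1 : ℕ)) : ℝ) - 1 / 2) ≤ 2 / X := by
      rw [div_le_div_iff₀ (by linarith) (by linarith)]
      linarith
    calc X * ∑ w ∈ Finset.Ico (⌊X⌋₊ + 1) N, 1 / (w : ℝ) ^ 2 ≤ X * (2 / X) := by
          gcongr
          exact h5.trans h7
      _ = 2 := by field_simp
  linarith

end Pool.Agent.Q3.NK
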