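import Mathlib
import Pool.Agent.Q3.NK.Sum
import Pool.Agent.Q3.NK.Overlap

/-!
# Overlaps of the reduced sets
-/

set_option autoImplicit false

open MeasureTheory

namespace Pool.Agent.Q3.NK

/-- The reduced sets. -/
def E {y : ℝ × ℝ} (C : Choice y) (ψ : ℕ → ℝ) (q : ℕ) : Set (ℝ × ℝ) :=
  {x | ∃ a : ℤ × ℤ, Adm C q a ∧ |(q : ℝ) * x.1 - a.1 - y.1| < ψ q ∧ |(q : ℝ) * x.2 - a.2 - y.2| < ψ q}

/-- The unit square. -/
def Sq : Set (ℝ × ℝ) := Set.Icc (0 : ℝ) 1 ×ˢ Set.Icc (0 : ℝ) 1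

theorem E_open {y : ℝ × ℝ} (C : Choice y) (ψ : ℕ → ℝ) (q : ℕ) : IsOpen (E C ψ q) := by
  have : E C ψ q = ⋃ a : ℤ × ℤ, ⋃ _ : Adm C q a,
      ({x : ℝ × ℝ | |(q : ℝ) * x.1 - a.1 - y.1| < ψ q} ∩ {x | |(q : ℝ) * x.2 - a.2 - y.2| < ψ q}) := by
    ext x
    simp only [E, Set.mem_ofPred_eq, Set.mem_iUnion, Set.mem_inter_iff, exists_prop]
  rw [this]
  refine isOpen_iUnion (fun a => isOpen_iUnion (fun _ => IsOpen.inter ?_ ?_))
  · exact isOpen_lt (by fun_prop) continuous_const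
  · exact isOpen_lt (by fun_prop) continuous_const

theorem E_inter_subset {y : ℝ × ℝ} (C : Choice y) (ψ : ℕ → ℝ) (q Q : ℕ) :
    E C ψ q ∩ E C ψ Q ∩ Sq ⊆ OD y.1 q Q (ψ q) (ψ Q) ×ˢ OD y.2 q Q (ψ q) (ψ Q) := by
  rintro x ⟨⟨⟨a, _, h1, h2⟩, ⟨a', _, h3, h4⟩⟩, hx1, hx2⟩
  exact ⟨⟨hx1, a.1, a'.1, h1, h3⟩, ⟨hx2, a.2, a'.2, h2, h4⟩⟩

/-- The dangerous pairs. -/
def Danger {y : ℝ × ℝ} (C : Choice y) (Ψ : ℝ) (p : ℕ × ℕ) : Prop :=
  1 ≤ p.1 ∧ 1 ≤ p.2 ∧ p.1 ≠ p.2 ∧ (p.2 : ℝ) * Ψ < 1 / 2 ∧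
      Near C Ψ (max p.2 p.1) (max p.2 p.1 - min p.2 p.1)

open Classical in
theorem pair_bound {y : ℝ × ℝ} (C : Choice y) (ψ : ℕ → ℝ) (hψ0 : ∀ q, 0 ≤ ψ q)
    (hψ1 : ∀ q, ψ q ≤ 1 / 4) (q Q : ℕ) (hq : 1 ≤ q) (hQ : 1 ≤ Q) (hne : q ≠ Q)
    (hle : ψ q ≤ ψ Q) :
    volume.real (E C ψ q ∩ E C ψ Q ∩ Sq) ≤ 2304 * (ψ q ^ 2 * ψ Q ^ 2) +
      36 * ψ Q ^ 2 * (if Danger C (ψ Q) (Q / Nat.gcd q Q, q / Nat.gcd q Q) then
        1 / ((max (q / Nat.gcd q Q) (Q / Nat.gcd q Q) : ℕ) : ℝ) ^ 2 else 0) := by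
  set G := Nat.gcd q Q with hG
  have hG1 : 1 ≤ G := Nat.gcd_pos_of_pos_left _ hq
  set u := q / G with hu
  set U := Q / G with hU
  have hqe : q = G * u := (Nat.mul_div_cancel' (Nat.gcd_dvd_left q Q)).symm
  have hQe : Q = G * U := (Nat.mul_div_cancel' (Nat.gcd_dvd_right q Q)).symm
  have hu1 : 1 ≤ u := by
    rcases Nat.eq_zero_or_pos u with h | h
    · rw [h] at hqe; omega
    · exact h
  have hU1 : 1 ≤ U := by
    rcases Nat.eq_zero_or_pos U with h | h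
    · rw [h] at hQe; omega
    · exact h
  have hcop : Nat.Coprime u U := Nat.coprime_div_gcd_div_gcd hG1
  have hneU : u ≠ U := by
    intro h
    apply hne
    rw [hqe, hQe, h]
  have hs0 := hψ0 q
  have ht0 := hψ0 Q
  have hs1 : ψ q ≤ 1 / 2 := (hψ1 q).trans (by norm_num)
  have ht1 : ψ Q ≤ 1 / 2 := (hψ1 Q).trans (by norm_num)
  -- the product bound
  have hprod : ∀ c : ℝ, 0 ≤ c → volume (OD y.1 q Q (ψ q) (ψ Q)) ≤ ENNReal.ofReal c →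
      volume (OD y.2 q Q (ψ q) (ψ Q)) ≤ ENNReal.ofReal c →
      volume.real (E C ψ q ∩ E C ψ Q ∩ Sq) ≤ c ^ 2 := by
    intro c hc h1 h2
    have h3 : volume (E C ψ q ∩ E C ψ Q ∩ Sq) ≤ ENNReal.ofReal (c ^ 2) := by
      refine (measure_mono (E_inter_subset C ψ q Q)).trans ?_
      rw [Measure.volume_eq_prod, Measure.prod_prod, sq, ENNReal.ofReal_mul hc]
      exact mul_le_mul' h1 h2
    exact ENNReal.toReal_le_of_le_ofReal (by positivity) h3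
  have hrest : 0 ≤ 36 * ψ Q ^ 2 * (if Danger C (ψ Q) (U, u) then
        1 / ((max u U : ℕ) : ℝ) ^ 2 else 0) := by
    split_ifs <;> positivity
  rcases le_or_gt (1 / 2) (U * ψ q + u * ψ Q) with hδ | hδ
  · have h1 := hprod (48 * (ψ q * ψ Q)) (by positivity)
      (by
        have := vol_OD_large y.1 (ψ q) (ψ Q) hs0 hs1 ht0 ht1 G u U hG1 hu1 hU1 hcop hδ
        rwa [← hqe, ← hQe] at this)
      (by
        have := vol_OD_large y.2 (ψ q) (ψ Q) hs0 hs1 ht0 ht1 G u U hG1 hu1 hU1 hcop hδ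
        rwa [← hqe, ← hQe] at this)
    have h2 : (48 * (ψ q * ψ Q)) ^ 2 = 2304 * (ψ q ^ 2 * ψ Q ^ 2) := by ring
    rw [h2] at h1
    linarith
  · by_cases hemp : E C ψ q ∩ E C ψ Q ∩ Sq = ∅
    · rw [hemp]
      simp only [measureReal_empty]
      positivity
    · -- nonempty: dangerous
      obtain ⟨x, ⟨⟨a, ha, h1, h2⟩, ⟨a', ha', h3, h4⟩⟩, hx⟩ := Set.nonempty_iff_ne_empty.mpr hemp
      have hw : (u : ℝ) ≤ ((max u U : ℕ) : ℝ) ∧ (U : ℝ) ≤ ((max u U : ℕ) : ℝ) :=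
        ⟨by exact_mod_cast le_max_left _ _, by exact_mod_cast le_max_right _ _⟩
      have hbig : (U : ℝ) * ψ q + u * ψ Q ≤ 2 * ((max u U : ℕ) : ℝ) * ψ Q := by
        have e1 : (U : ℝ) * ψ q ≤ ((max u U : ℕ) : ℝ) * ψ Q := by
          apply mul_le_mul hw.2 hle hs0 (by positivity)
        have e2 : (u : ℝ) * ψ Q ≤ ((max u U : ℕ) : ℝ) * ψ Q := by
          apply mul_le_mul_of_nonneg_right hw.1 ht0
        linarith
      have hdan : Danger C (ψ Q) (U, u) := by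
        refine ⟨hU1, hu1, hneU.symm, ?_, ?_⟩
        · have : 0 ≤ (U : ℝ) * ψ q := by positivity
          change (u : ℝ) * ψ Q < 1 / 2
          linarith
        · obtain ⟨m, e1, e2, e3⟩ := exclusion C G u U hu1 hU1 hcop hneU a a'
            (by rw [← hqe]; exact ha) (by rw [← hQe]; exact ha') x (ψ q) (ψ Q)
            (by rw [← hqe]; exact h1) (by rw [← hqe]; exact h2)
            (by rw [← hQe]; exact h3) (by rw [← hQe]; exact h4)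
          exact ⟨m, e1.trans_le hbig, e2.trans_le hbig, e3⟩
      rw [if_pos hdan]
      have h5 := hprod (6 * (ψ Q / (max u U : ℕ))) (by positivity)
        (by
          have := vol_OD_small y.1 (ψ q) (ψ Q) hs0 hle ht1 G u U hG1 hu1 hU1 hcop hδ
          rwa [← hqe, ← hQe] at this)
        (by
          have := vol_OD_small y.2 (ψ q) (ψ Q) hs0 hle ht1 G u U hG1 hu1 hU1 hcop hδ
          rwa [← hqe, ← hQe] at this)
      have h6 : (6 * (ψ Q / ((max u U : ℕ) : ℝ))) ^ 2 = 36 * ψ Q ^ 2 * (1 / ((max u U : ℕ) : ℝ) ^ 2) := by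
        ring
      rw [h6] at h5
      have : 0 ≤ 2304 * (ψ q ^ 2 * ψ Q ^ 2) := by positivity
      linarith

/-- The sum over the pairs anchored at `Q`. -/
theorem anchor_bound {y : ℝ × ℝ} (C : Choice y) (ψ : ℕ → ℝ) (hψ0 : ∀ q, 0 ≤ ψ q)
    (hψ1 : ∀ q, ψ q ≤ 1 / 4) (Q : ℕ) (hQ : 1 ≤ Q) (I : Finset ℕ) (hI : ∀ q ∈ I, 1 ≤ q ∧ q ≠ Q ∧
      ψ q ≤ ψ Q) :
    ∑ q ∈ I, volume.real (E C ψ q ∩ E C ψ Q ∩ Sq) ≤
      2304 * ψ Q ^ 2 * (∑ q ∈ I, ψ q ^ 2) + 1152 * ψ Q ^ 2 := by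
  classical
  rcases (hψ0 Q).lt_or_eq with hpos | hzero
  swap
  · -- ψ Q = 0 : everything vanishes
    have : ∀ q ∈ I, volume.real (E C ψ q ∩ E C ψ Q ∩ Sq) = 0 := by
      intro q _
      have : E C ψ Q = ∅ := by
        ext x
        simp only [E, Set.mem_ofPred_eq, Set.mem_empty_iff_false, iff_false]
        rintro ⟨a, _, h1, _⟩
        rw [← hzero] at h1
        exact absurd h1 (not_lt.mpr (abs_nonneg _))
      rw [this]
      simp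
    rw [Finset.sum_congr rfl this]
    simp [← hzero]
  have h1 : ∑ q ∈ I, volume.real (E C ψ q ∩ E C ψ Q ∩ Sq) ≤
      ∑ q ∈ I, (2304 * (ψ q ^ 2 * ψ Q ^ 2) +
      36 * ψ Q ^ 2 * (if Danger C (ψ Q) (Q / Nat.gcd q Q, q / Nat.gcd q Q) then
        1 / ((max (q / Nat.gcd q Q) (Q / Nat.gcd q Q) : ℕ) : ℝ) ^ 2 else 0)) := by
    apply Finset.sum_le_sum
    intro q hq
    obtain ⟨e1, e2, e3⟩ := hI q hq
    have := pair_bound C ψ hψ0 hψ1 q Q e1 hQ e2 e3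
    convert this
  refine h1.trans ?_
  rw [Finset.sum_add_distrib]
  have h2 : ∑ q ∈ I, (2304 * (ψ q ^ 2 * ψ Q ^ 2)) = 2304 * ψ Q ^ 2 * (∑ q ∈ I, ψ q ^ 2) := by
    rw [Finset.mul_sum]
    apply Finset.sum_congr rfl
    intro q _
    ring
  rw [h2, ← Finset.mul_sum]
  have h3 : ∑ q ∈ I, (if Danger C (ψ Q) (Q / Nat.gcd q Q, q / Nat.gcd q Q) then
        1 / ((max (q / Nat.gcd q Q) (Q / Nat.gcd q Q) : ℕ) : ℝ) ^ 2 else 0) ≤ 32 := by
    rw [← Finset.sum_filter]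
    set J := I.filter (fun q => Danger C (ψ Q) (Q / Nat.gcd q Q, q / Nat.gcd q Q)) with hJ
    have hinj : Set.InjOn (fun q : ℕ => (Q / Nat.gcd q Q, q / Nat.gcd q Q)) (J : Set ℕ) := by
      intro q _ q' _ hqq
      simp only [Prod.mk.injEq] at hqq
      obtain ⟨e1, e2⟩ := hqq
      have hd1 : Q = Nat.gcd q Q * (Q / Nat.gcd q Q) :=
        (Nat.mul_div_cancel' (Nat.gcd_dvd_right q Q)).symm
      have hd2 : Q = Nat.gcd q' Q * (Q / Nat.gcd q' Q) :=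
        (Nat.mul_div_cancel' (Nat.gcd_dvd_right q' Q)).symm
      have hd3 : q = Nat.gcd q Q * (q / Nat.gcd q Q) :=
        (Nat.mul_div_cancel' (Nat.gcd_dvd_left q Q)).symm
      have hd4 : q' = Nat.gcd q' Q * (q' / Nat.gcd q' Q) :=
        (Nat.mul_div_cancel' (Nat.gcd_dvd_left q' Q)).symm
      have hU : 0 < Q / Nat.gcd q Q := by
        rcases Nat.eq_zero_or_pos (Q / Nat.gcd q Q) with h | h
        · rw [h] at hd1; omega
        · exact h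
      have hg : Nat.gcd q Q = Nat.gcd q' Q := by
        rw [← e1] at hd2
        have : Nat.gcd q Q * (Q / Nat.gcd q Q) = Nat.gcd q' Q * (Q / Nat.gcd q Q) := by
          rw [← hd1]; exact hd2
        exact Nat.eq_of_mul_eq_mul_right hU this
      rw [hd3, hd4, e2, hg]
    have h4 : ∑ q ∈ J, 1 / ((max (q / Nat.gcd q Q) (Q / Nat.gcd q Q) : ℕ) : ℝ) ^ 2 =
        ∑ p ∈ J.image (fun q : ℕ => (Q / Nat.gcd q Q, q / Nat.gcd q Q)),
          1 / ((max p.2 p.1 : ℕ) : ℝ) ^ 2 := by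
      rw [Finset.sum_image hinj]
    rw [h4]
    apply sum_pairs C (ψ Q) hpos (hψ1 Q)
    intro p hp
    rw [Finset.mem_image] at hp
    obtain ⟨q, hq, rfl⟩ := hp
    exact (Finset.mem_filter.mp hq).2
  have h5 : 0 ≤ 36 * ψ Q ^ 2 := by positivity
  nlinarith

end Pool.Agent.Q3.NK
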