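import Mathlib
import Pool.Agent.Q3.NK.Pairs

/-!
# Local lower bounds for the measure of the reduced sets
-/

set_option autoImplicit false

open MeasureTheory Filter Topology

namespace Pool.Agent.Q3.NK

theorem class_card (A B c : ℤ) (w : ℕ) (hw : 1 ≤ w) (hAB : A ≤ B) :
    (((Finset.Icc A B).filter (fun a => (w : ℤ) ∣ a - c)).card : ℝ) ≤ ((B : ℝ) - A) / w + 1 := by
  have hw0 : (0 : ℝ) < w := by exact_mod_cast hw
  have hsub : (Finset.Icc A B).filter (fun a => (w : ℤ) ∣ a - c) ⊆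
      (Finset.Icc ⌈((A : ℝ) - c) / w⌉ ⌊((B : ℝ) - c) / w⌋).image (fun j => c + w * j) := by
    intro a ha
    rw [Finset.mem_filter, Finset.mem_Icc] at ha
    obtain ⟨⟨h1, h2⟩, j, hj⟩ := ha
    rw [Finset.mem_image]
    refine ⟨j, ?_, by linarith⟩
    have h1' : (A : ℝ) ≤ a := by exact_mod_cast h1
    have h2' : (a : ℝ) ≤ B := by exact_mod_cast h2
    have hj' : (a : ℝ) - c = w * j := by exact_mod_cast hj
    rw [Finset.mem_Icc]
    constructor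
    · rw [Int.ceil_le, div_le_iff₀ hw0]; linarith
    · rw [Int.le_floor, le_div_iff₀ hw0]; linarith
  have h1 := (Finset.card_le_card hsub).trans Finset.card_image_le
  rw [Int.card_Icc] at h1
  have hAB' : (A : ℝ) ≤ B := by exact_mod_cast hAB
  have h2 : ((⌊((B : ℝ) - c) / w⌋ + 1 - ⌈((A : ℝ) - c) / w⌉).toNat : ℝ) ≤ ((B : ℝ) - A) / w + 1 := by
    have h3 : (((⌊((B : ℝ) - c) / w⌋ + 1 - ⌈((A : ℝ) - c) / w⌉).toNat : ℤ) : ℝ) =
        ((max (⌊((B : ℝ) - c) / w⌋ + 1 - ⌈((A : ℝ) - c) / w⌉) 0 : ℤ) : ℝ) := by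
      rw [Int.toNat_eq_max]
    have h4 : ((⌊((B : ℝ) - c) / w⌋ + 1 - ⌈((A : ℝ) - c) / w⌉).toNat : ℝ) =
        (((⌊((B : ℝ) - c) / w⌋ + 1 - ⌈((A : ℝ) - c) / w⌉).toNat : ℤ) : ℝ) := by push_cast; rfl
    rw [h4, h3]
    push_cast
    apply max_le
    · have h5 := Int.floor_le (((B : ℝ) - c) / w)
      have h6 := Int.le_ceil (((A : ℝ) - c) / w)
      have h7 : ((B : ℝ) - A) / w = ((B : ℝ) - c) / w - ((A : ℝ) - c) / w := by ring
      rw [h7]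
      linarith
    · have : 0 ≤ ((B : ℝ) - A) / w := div_nonneg (by linarith) hw0.le
      linarith
  have h1' : (((Finset.Icc A B).filter (fun a => (w : ℤ) ∣ a - c)).card : ℝ) ≤
      ((⌊((B : ℝ) - c) / w⌋ + 1 - ⌈((A : ℝ) - c) / w⌉).toNat : ℝ) := by exact_mod_cast h1
  exact h1'.trans h2

/-- The number of inadmissible points of a box for one modulus. -/
theorem bad_card {y : ℝ × ℝ} (C : Choice y) (w : ℕ) (hw : 2 ≤ w) (A1 B1 A2 B2 : ℤ)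
    (h1 : A1 ≤ B1) (h2 : A2 ≤ B2) (N : ℝ) (hN1 : (B1 : ℝ) - A1 ≤ N) (hN2 : (B2 : ℝ) - A2 ≤ N) :
    (((Finset.Icc A1 B1 ×ˢ Finset.Icc A2 B2).filter (fun a : ℤ × ℤ =>
      (w : ℤ) ∣ C.V w * a.1 + (C.B w).1 ∧ (w : ℤ) ∣ C.V w * a.2 + (C.B w).2)).card : ℝ) ≤
      (N / w + 1) ^ 2 := by
  classical
  have hw0 : (0 : ℝ) < w := by
    have : 0 < w := by omega
    exact_mod_cast this
  have hAB1 : (A1 : ℝ) ≤ B1 := by exact_mod_cast h1
  set F := (Finset.Icc A1 B1 ×ˢ Finset.Icc A2 B2).filter (fun a : ℤ × ℤ =>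
      (w : ℤ) ∣ C.V w * a.1 + (C.B w).1 ∧ (w : ℤ) ∣ C.V w * a.2 + (C.B w).2) with hF
  rcases F.eq_empty_or_nonempty with hemp | ⟨c, hc⟩
  · rw [hemp]; simp; positivity
  have hsub : F ⊆ ((Finset.Icc A1 B1).filter (fun a => (w : ℤ) ∣ a - c.1)) ×ˢ
      ((Finset.Icc A2 B2).filter (fun a => (w : ℤ) ∣ a - c.2)) := by
    intro a ha
    rw [hF, Finset.mem_filter, Finset.mem_product] at ha hc
    obtain ⟨⟨e1, e2⟩, e3, e4⟩ := ha
    obtain ⟨_, e5, e6⟩ := hc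
    obtain ⟨e7, e8⟩ := class_unique C w hw a c e3 e4 e5 e6
    rw [Finset.mem_product, Finset.mem_filter, Finset.mem_filter]
    exact ⟨⟨e1, e7⟩, ⟨e2, e8⟩⟩
  have h3 := Finset.card_le_card hsub
  rw [Finset.card_product] at h3
  have h4 := class_card A1 B1 c.1 w (by omega) h1
  have h5 := class_card A2 B2 c.2 w (by omega) h2
  have h6 : ((B1 : ℝ) - A1) / w + 1 ≤ N / w + 1 := by gcongr
  have h7 : ((B2 : ℝ) - A2) / w + 1 ≤ N / w + 1 := by gcongr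
  have hN : 0 ≤ N := by linarith
  calc (F.card : ℝ) ≤ (((Finset.Icc A1 B1).filter (fun a => (w : ℤ) ∣ a - c.1)).card : ℝ) *
        (((Finset.Icc A2 B2).filter (fun a => (w : ℤ) ∣ a - c.2)).card : ℝ) := by exact_mod_cast h3
    _ ≤ (N / w + 1) * (N / w + 1) := by
        apply mul_le_mul (h4.trans h6) (h5.trans h7) (by positivity) (by positivity)
    _ = (N / w + 1) ^ 2 := by ring

theorem sum_bad (q : ℕ) (hq : 1 ≤ q) (N : ℝ) (hN : 0 ≤ N) :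
    ∑ w ∈ Finset.Ico 2 (q + 1), (N / (w : ℝ) + 1) ^ 2 ≤
      2 / 3 * N ^ 2 + 2 * N * (1 + Real.log q) + q := by
  have h1 : ∑ w ∈ Finset.Ico 2 (q + 1), (N / (w : ℝ) + 1) ^ 2 =
      N ^ 2 * (∑ w ∈ Finset.Ico 2 (q + 1), 1 / (w : ℝ) ^ 2) +
      2 * N * (∑ w ∈ Finset.Ico 2 (q + 1), (w : ℝ)⁻¹) + ∑ w ∈ Finset.Ico 2 (q + 1), (1 : ℝ) := by
    rw [Finset.mul_sum, Finset.mul_sum, ← Finset.sum_add_distrib, ← Finset.sum_add_distrib]
    apply Finset.sum_congr rfl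
    intro w _
    ring
  rw [h1]
  have h2 : ∑ w ∈ Finset.Ico 2 (q + 1), 1 / (w : ℝ) ^ 2 ≤ 2 / 3 := by
    refine (sum_inv_sq 2 (q + 1) (by norm_num)).trans (le_of_eq ?_)
    norm_num
  have h3 : ∑ w ∈ Finset.Ico 2 (q + 1), (w : ℝ)⁻¹ ≤ 1 + Real.log q := by
    have h4 := harmonic_le_one_add_log q
    rw [harmonic_eq_sum_Icc] at h4
    push_cast at h4
    refine le_trans ?_ h4
    apply Finset.sum_le_sum_of_subset_of_nonneg
    · intro w hw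
      rw [Finset.mem_Ico] at hw
      rw [Finset.mem_Icc]
      omega
    · intro w _ _
      positivity
  have h5 : ∑ w ∈ Finset.Ico 2 (q + 1), (1 : ℝ) ≤ q := by
    rw [Finset.sum_const, Nat.card_Ico, nsmul_eq_mul, mul_one]
    have : q + 1 - 2 ≤ q := by omega
    exact_mod_cast this
  have h6 : N ^ 2 * (∑ w ∈ Finset.Ico 2 (q + 1), 1 / (w : ℝ) ^ 2) ≤ N ^ 2 * (2 / 3) := by gcongr
  have h7 : 2 * N * (∑ w ∈ Finset.Ico 2 (q + 1), (w : ℝ)⁻¹) ≤ 2 * N * (1 + Real.log q) := by gcongr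
  linarith

/-- The main term dominates. -/
theorem exists_q0 (σ : ℝ) (hσ : 0 < σ) : ∃ q0 : ℕ, 1 ≤ q0 ∧ ∀ q : ℕ, q0 ≤ q →
    2 ≤ q * σ ∧ σ ^ 2 * (q : ℝ) ^ 2 / 6 ≤ (q * σ - 2) ^ 2 -
      (2 / 3 * (q * σ + 1) ^ 2 + 2 * (q * σ + 1) * (1 + Real.log q) + q) := by
  have hlog : Tendsto (fun q : ℝ => Real.log q / q) atTop (𝓝 0) :=
    Real.isLittleO_log_id_atTop.tendsto_div_nhds_zero
  have hinv : Tendsto (fun q : ℝ => 1 / q) atTop (𝓝 0) := by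
    simpa using tendsto_inv_atTop_zero
  have hlim : Tendsto (fun q : ℝ => (σ - 2 * (1 / q)) ^ 2 -
      (2 / 3 * (σ + 1 / q) ^ 2 + 2 * (σ + 1 / q) * (1 / q + Real.log q / q) + 1 / q)) atTop
      (𝓝 ((σ - 2 * 0) ^ 2 - (2 / 3 * (σ + 0) ^ 2 + 2 * (σ + 0) * (0 + 0) + 0))) := by
    have c1 : Tendsto (fun q : ℝ => σ - 2 * (1 / q)) atTop (𝓝 (σ - 2 * 0)) :=
      tendsto_const_nhds.sub (hinv.const_mul 2)
    have c2 : Tendsto (fun q : ℝ => σ + 1 / q) atTop (𝓝 (σ + 0)) := tendsto_const_nhds.add hinv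
    have c3 : Tendsto (fun q : ℝ => 1 / q + Real.log q / q) atTop (𝓝 (0 + 0)) := hinv.add hlog
    exact (c1.pow 2).sub ((((c2.pow 2).const_mul (2 / 3)).add ((c2.const_mul 2).mul c3)).add hinv)
  have hlt : σ ^ 2 / 6 < (σ - 2 * 0) ^ 2 - (2 / 3 * (σ + 0) ^ 2 + 2 * (σ + 0) * (0 + 0) + 0) := by
    have : 0 < σ ^ 2 := by positivity
    nlinarith
  have hev := hlim.eventually (lt_mem_nhds hlt)
  have hev2 : ∀ᶠ q : ℝ in atTop, 2 ≤ q * σ := by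
    filter_upwards [eventually_ge_atTop (2 / σ)] with q hq
    rwa [div_le_iff₀ hσ] at hq
  have hev3 := hev.and (hev2.and (eventually_ge_atTop (1 : ℝ)))
  have hev4 := tendsto_natCast_atTop_atTop.eventually hev3
  obtain ⟨q0, hq0⟩ := eventually_atTop.mp hev4
  refine ⟨max q0 1, le_max_right _ _, fun q hq => ?_⟩
  obtain ⟨h1, h2, h3⟩ := hq0 q ((le_max_left _ _).trans hq)
  refine ⟨h2, ?_⟩
  have hq' : (0 : ℝ) < q := by linarith
  have h4 : σ ^ 2 / 6 * (q : ℝ) ^ 2 < ((σ - 2 * (1 / (q : ℝ))) ^ 2 -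
      (2 / 3 * (σ + 1 / (q : ℝ)) ^ 2 + 2 * (σ + 1 / (q : ℝ)) * (1 / (q : ℝ) + Real.log q / q) +
        1 / (q : ℝ))) * (q : ℝ) ^ 2 := by
    apply mul_lt_mul_of_pos_right h1 (by positivity)
  have h5 : ((σ - 2 * (1 / (q : ℝ))) ^ 2 -
      (2 / 3 * (σ + 1 / (q : ℝ)) ^ 2 + 2 * (σ + 1 / (q : ℝ)) * (1 / (q : ℝ) + Real.log q / q) +
        1 / (q : ℝ))) * (q : ℝ) ^ 2 = (q * σ - 2) ^ 2 -
      (2 / 3 * (q * σ + 1) ^ 2 + 2 * (q * σ + 1) * (1 + Real.log q) + q) := by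
    field_simp
  rw [h5] at h4
  linarith

/-- Cells. -/
def Cell (α1 α2 σ : ℝ) : Set (ℝ × ℝ) := Set.Ico α1 (α1 + σ) ×ˢ Set.Ico α2 (α2 + σ)

/-- boxes around the points `(a+y)/q`. -/
def Bx (y : ℝ × ℝ) (q s : ℝ) (a : ℤ × ℤ) : Set (ℝ × ℝ) :=
  {x | |q * x.1 - a.1 - y.1| < s ∧ |q * x.2 - a.2 - y.2| < s}

theorem Bx_eq (y : ℝ × ℝ) (q s : ℝ) (hq : 0 < q) (a : ℤ × ℤ) : Bx y q s a =
    Set.Ioo ((a.1 + y.1 - s) / q) ((a.1 + y.1 + s) / q) ×ˢ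
    Set.Ioo ((a.2 + y.2 - s) / q) ((a.2 + y.2 + s) / q) := by
  ext x
  simp only [Bx, Set.mem_ofPred_eq, Set.mem_prod, Set.mem_Ioo, abs_lt, div_lt_iff₀ hq,
    lt_div_iff₀ hq]
  constructor
  · rintro ⟨⟨h1, h2⟩, h3, h4⟩
    refine ⟨⟨?_, ?_⟩, ?_, ?_⟩ <;> linarith
  · rintro ⟨⟨h1, h2⟩, h3, h4⟩
    refine ⟨⟨?_, ?_⟩, ?_, ?_⟩ <;> linarith

theorem vol_Bx (y : ℝ × ℝ) (q s : ℝ) (hq : 0 < q) (hs : 0 ≤ s) (a : ℤ × ℤ) :
    volume (Bx y q s a) = ENNReal.ofReal ((2 * s / q) ^ 2) := by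
  rw [Bx_eq y q s hq a, Measure.volume_eq_prod, Measure.prod_prod, Real.volume_Ioo, Real.volume_Ioo,
    sq, ENNReal.ofReal_mul (by positivity)]
  congr 2 <;> ring

/-- The local lower bound. -/
theorem local_lower {y : ℝ × ℝ} (C : Choice y) (ψ : ℕ → ℝ) (hψ0 : ∀ q, 0 ≤ ψ q)
    (hψ1 : ∀ q, ψ q ≤ 1 / 4) (σ : ℝ) (hσ : 0 < σ) : ∃ q0 : ℕ, 1 ≤ q0 ∧ ∀ q : ℕ, q0 ≤ q →
    ∀ α1 α2 : ℝ, 2 / 3 * σ ^ 2 * ψ q ^ 2 ≤ volume.real (E C ψ q ∩ Cell α1 α2 σ) := by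
  classical
  obtain ⟨q0, hq01, hq0⟩ := exists_q0 σ hσ
  refine ⟨q0, hq01, fun q hq α1 α2 => ?_⟩
  obtain ⟨hqσ, hbig⟩ := hq0 q hq
  have hq1 : 1 ≤ q := hq01.trans hq
  have hqr : (0 : ℝ) < q := by exact_mod_cast hq1
  have hs0 := hψ0 q
  have hs1 := hψ1 q
  set s := ψ q with hs
  set A1 : ℤ := ⌈q * α1 - y.1 + s⌉ with hA1
  set B1 : ℤ := ⌊q * (α1 + σ) - y.1 - s⌋ with hB1
  set A2 : ℤ := ⌈q * α2 - y.2 + s⌉ with hA2
  set B2 : ℤ := ⌊q * (α2 + σ) - y.2 - s⌋ with hB2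
  have a1 : (A1 : ℝ) < q * α1 - y.1 + s + 1 := Int.ceil_lt_add_one _
  have a1' : q * α1 - y.1 + s ≤ (A1 : ℝ) := Int.le_ceil _
  have b1 : q * (α1 + σ) - y.1 - s - 1 < (B1 : ℝ) := Int.sub_one_lt_floor _
  have b1' : (B1 : ℝ) ≤ q * (α1 + σ) - y.1 - s := Int.floor_le _
  have a2 : (A2 : ℝ) < q * α2 - y.2 + s + 1 := Int.ceil_lt_add_one _
  have a2' : q * α2 - y.2 + s ≤ (A2 : ℝ) := Int.le_ceil _
  have b2 : q * (α2 + σ) - y.2 - s - 1 < (B2 : ℝ) := Int.sub_one_lt_floor _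
  have b2' : (B2 : ℝ) ≤ q * (α2 + σ) - y.2 - s := Int.floor_le _
  have len1 : (q : ℝ) * σ - 5 / 2 < (B1 : ℝ) - A1 := by linarith
  have len1' : (B1 : ℝ) - A1 ≤ q * σ + 1 := by linarith
  have len2 : (q : ℝ) * σ - 5 / 2 < (B2 : ℝ) - A2 := by linarith
  have len2' : (B2 : ℝ) - A2 ≤ q * σ + 1 := by linarith
  have hAB1 : A1 ≤ B1 := by
    have : (-1 : ℝ) < (B1 : ℝ) - A1 := by linarith
    have : (-1 : ℤ) < B1 - A1 := by exact_mod_cast this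
    omega
  have hAB2 : A2 ≤ B2 := by
    have : (-1 : ℝ) < (B2 : ℝ) - A2 := by linarith
    have : (-1 : ℤ) < B2 - A2 := by exact_mod_cast this
    omega
  set Bo := Finset.Icc A1 B1 ×ˢ Finset.Icc A2 B2 with hBo
  set F := Bo.filter (fun a => Adm C q a) with hF
  -- cardinality of the box
  have hcardBo : ((q : ℝ) * σ - 2) ^ 2 ≤ (Bo.card : ℝ) := by
    rw [hBo, Finset.card_product, Int.card_Icc, Int.card_Icc]
    have e1 : (((B1 + 1 - A1).toNat : ℕ) : ℝ) = (B1 : ℝ) + 1 - A1 := by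
      have : ((B1 + 1 - A1).toNat : ℤ) = B1 + 1 - A1 := Int.toNat_of_nonneg (by omega)
      have h : ((((B1 + 1 - A1).toNat : ℕ) : ℤ) : ℝ) = ((B1 + 1 - A1 : ℤ) : ℝ) := by rw [this]
      push_cast at h ⊢
      exact h
    have e2 : (((B2 + 1 - A2).toNat : ℕ) : ℝ) = (B2 : ℝ) + 1 - A2 := by
      have : ((B2 + 1 - A2).toNat : ℤ) = B2 + 1 - A2 := Int.toNat_of_nonneg (by omega)
      have h : ((((B2 + 1 - A2).toNat : ℕ) : ℤ) : ℝ) = ((B2 + 1 - A2 : ℤ) : ℝ) := by rw [this]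
      push_cast at h ⊢
      exact h
    push_cast
    rw [e1, e2, sq]
    apply mul_le_mul <;> linarith
  -- the bad points
  have hbad : ((Bo.filter (fun a => ¬ Adm C q a)).card : ℝ) ≤
      2 / 3 * (q * σ + 1) ^ 2 + 2 * (q * σ + 1) * (1 + Real.log q) + q := by
    have hsub : Bo.filter (fun a => ¬ Adm C q a) ⊆ (Finset.Ico 2 (q + 1)).biUnion (fun w =>
        Bo.filter (fun a : ℤ × ℤ => (w : ℤ) ∣ C.V w * a.1 + (C.B w).1 ∧
          (w : ℤ) ∣ C.V w * a.2 + (C.B w).2)) := by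
      intro a ha
      rw [Finset.mem_filter] at ha
      obtain ⟨h1, h2⟩ := ha
      unfold Adm at h2
      push Not at h2
      obtain ⟨w, hw1, hw2, hw3⟩ := h2
      rw [Finset.mem_biUnion]
      refine ⟨w, ?_, ?_⟩
      · rw [Finset.mem_Ico]
        have := Nat.le_of_dvd (by omega) hw1
        omega
      · rw [Finset.mem_filter]
        exact ⟨h1, hw3⟩
    have h1 := (Finset.card_le_card hsub).trans Finset.card_biUnion_le
    have h2 : ((Bo.filter (fun a => ¬ Adm C q a)).card : ℝ) ≤ ∑ w ∈ Finset.Ico 2 (q + 1),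
        ((Bo.filter (fun a : ℤ × ℤ => (w : ℤ) ∣ C.V w * a.1 + (C.B w).1 ∧
          (w : ℤ) ∣ C.V w * a.2 + (C.B w).2)).card : ℝ) := by exact_mod_cast h1
    refine h2.trans ((Finset.sum_le_sum (fun w hw => ?_)).trans
      (sum_bad q hq1 (q * σ + 1) (by positivity)))
    rw [Finset.mem_Ico] at hw
    exact bad_card C w hw.1 A1 B1 A2 B2 hAB1 hAB2 _ len1' len2'
  have hcardF : σ ^ 2 * (q : ℝ) ^ 2 / 6 ≤ (F.card : ℝ) := by
    have h1 : (F.card : ℝ) + ((Bo.filter (fun a => ¬ Adm C q a)).card : ℝ) = Bo.card := by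
      rw [hF]
      exact_mod_cast Finset.card_filter_add_card_filter_not (s := Bo) (fun a => Adm C q a)
    linarith
  -- the union of boxes
  have hsubE : (⋃ a ∈ F, Bx y q s a) ⊆ E C ψ q ∩ Cell α1 α2 σ := by
    intro x hx
    simp only [Set.mem_iUnion] at hx
    obtain ⟨a, haF, h1, h2⟩ := hx
    rw [hF, Finset.mem_filter, hBo, Finset.mem_product, Finset.mem_Icc, Finset.mem_Icc] at haF
    obtain ⟨⟨⟨e1, e2⟩, e3, e4⟩, e5⟩ := haF
    refine ⟨⟨a, e5, h1, h2⟩, ?_⟩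
    have e1' : (A1 : ℝ) ≤ a.1 := by exact_mod_cast e1
    have e2' : (a.1 : ℝ) ≤ B1 := by exact_mod_cast e2
    have e3' : (A2 : ℝ) ≤ a.2 := by exact_mod_cast e3
    have e4' : (a.2 : ℝ) ≤ B2 := by exact_mod_cast e4
    rw [abs_lt] at h1 h2
    refine ⟨⟨?_, ?_⟩, ⟨?_, ?_⟩⟩
    · have : (q : ℝ) * α1 ≤ q * x.1 := by linarith
      exact le_of_mul_le_mul_left this hqr
    · have : (q : ℝ) * x.1 < q * (α1 + σ) := by linarith
      exact lt_of_mul_lt_mul_left this hqr.le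
    · have : (q : ℝ) * α2 ≤ q * x.2 := by linarith
      exact le_of_mul_le_mul_left this hqr
    · have : (q : ℝ) * x.2 < q * (α2 + σ) := by linarith
      exact lt_of_mul_lt_mul_left this hqr.le
  have hdisj : (F : Set (ℤ × ℤ)).PairwiseDisjoint (Bx y q s) := by
    intro a _ b _ hab
    rw [Function.onFun, Set.disjoint_left]
    rintro x ⟨h1, h2⟩ ⟨h3, h4⟩
    apply hab
    rw [abs_lt] at h1 h2 h3 h4
    apply Prod.ext
    · have e1 : |((a.1 - b.1 : ℤ) : ℝ)| < 1 := by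
        push_cast
        rw [abs_lt]
        constructor <;> linarith
      have e2 : |a.1 - b.1| < 1 := by exact_mod_cast e1
      have := Int.abs_lt_one_iff.mp e2
      omega
    · have e1 : |((a.2 - b.2 : ℤ) : ℝ)| < 1 := by
        push_cast
        rw [abs_lt]
        constructor <;> linarith
      have e2 : |a.2 - b.2| < 1 := by exact_mod_cast e1
      have := Int.abs_lt_one_iff.mp e2
      omega
  have hmeas : ∀ a ∈ F, MeasurableSet (Bx y q s a) := by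
    intro a _
    rw [Bx_eq y q s hqr a]
    exact measurableSet_Ioo.prod measurableSet_Ioo
  have hvol : volume (⋃ a ∈ F, Bx y q s a) = ENNReal.ofReal (F.card * (2 * s / q) ^ 2) := by
    rw [measure_biUnion_finset hdisj hmeas]
    rw [Finset.sum_congr rfl (fun a _ => vol_Bx y q s hqr hs0 a), Finset.sum_const, nsmul_eq_mul,
      ENNReal.ofReal_mul (p := (F.card : ℝ)) (by positivity), ENNReal.ofReal_natCast]
  have hfin : volume (E C ψ q ∩ Cell α1 α2 σ) ≠ ⊤ := by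
    apply ne_top_of_le_ne_top _ (measure_mono Set.inter_subset_right)
    unfold Cell
    rw [Measure.volume_eq_prod, Measure.prod_prod, Real.volume_Ico, Real.volume_Ico]
    exact ENNReal.mul_ne_top ENNReal.ofReal_ne_top ENNReal.ofReal_ne_top
  have h1 : (F.card : ℝ) * (2 * s / q) ^ 2 ≤ volume.real (E C ψ q ∩ Cell α1 α2 σ) := by
    have h2 := measure_mono (μ := volume) hsubE
    rw [hvol] at h2
    have h3 := (ENNReal.toReal_le_toReal ENNReal.ofReal_ne_top hfin).mpr h2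
    rwa [ENNReal.toReal_ofReal (by positivity)] at h3
  refine le_trans ?_ h1
  calc 2 / 3 * σ ^ 2 * s ^ 2 = (σ ^ 2 * (q : ℝ) ^ 2 / 6) * (2 * s / q) ^ 2 := by
        field_simp; ring
    _ ≤ F.card * (2 * s / q) ^ 2 := by gcongr

end Pool.Agent.Q3.NK
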