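import Mathlib
import Pool.Agent.Q3.NK.Lower

/-!
# Second moment
-/

set_option autoImplicit false

open MeasureTheory Filter Topology

namespace Pool.Agent.Q3.NK

theorem second_moment {α : Type*} [MeasurableSpace α] (ν : Measure α) [IsFiniteMeasure ν]
    (I : Finset ℕ) (A : ℕ → Set α) (hA : ∀ q, MeasurableSet (A q)) (t : ℝ) (ht : 0 < t) :
    ∑ q ∈ I, ν.real (A q) ≤ 1 / (2 * t) * (∑ q ∈ I, ∑ Q ∈ I, ν.real (A q ∩ A Q)) +
      t / 2 * ν.real Set.univ := by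
  set f : ℕ → α → ℝ := fun q => (A q).indicator 1 with hf
  have hint : ∀ q, Integrable (f q) ν := fun q =>
    (integrable_indicator_iff (hA q)).mpr (integrableOn_const (by simp) (by simp))
  have hintS : Integrable (fun x => ∑ q ∈ I, f q x) ν := integrable_finset_sum _ (fun q _ => hint q)
  have hprod : ∀ q Q, (fun x => f q x * f Q x) = (A q ∩ A Q).indicator 1 := by
    intro q Q
    funext x
    simp only [hf, Set.inter_indicator_one, Pi.mul_apply]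
  have hint2 : ∀ q Q, Integrable (fun x => f q x * f Q x) ν := fun q Q => by
    rw [hprod]
    exact (integrable_indicator_iff ((hA q).inter (hA Q))).mpr
      (integrableOn_const (by simp) (by simp))
  have hintS2 : Integrable (fun x => ∑ q ∈ I, ∑ Q ∈ I, f q x * f Q x) ν :=
    integrable_finset_sum _ (fun q _ => integrable_finset_sum _ (fun Q _ => hint2 q Q))
  have h1 : ∫ x, (∑ q ∈ I, f q x) ∂ν = ∑ q ∈ I, ν.real (A q) := by
    rw [integral_finset_sum _ (fun q _ => hint q)]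
    apply Finset.sum_congr rfl
    intro q _
    exact integral_indicator_one (hA q)
  have h2 : ∫ x, (∑ q ∈ I, ∑ Q ∈ I, f q x * f Q x) ∂ν = ∑ q ∈ I, ∑ Q ∈ I, ν.real (A q ∩ A Q) := by
    rw [integral_finset_sum _ (fun q _ => integrable_finset_sum _ (fun Q _ => hint2 q Q))]
    apply Finset.sum_congr rfl
    intro q _
    rw [integral_finset_sum _ (fun Q _ => hint2 q Q)]
    apply Finset.sum_congr rfl
    intro Q _
    rw [hprod]
    exact integral_indicator_one ((hA q).inter (hA Q))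
  rw [← h1, ← h2]
  have h3 : ∫ x, (∑ q ∈ I, f q x) ∂ν ≤
      ∫ x, (1 / (2 * t) * (∑ q ∈ I, ∑ Q ∈ I, f q x * f Q x) + t / 2) ∂ν := by
    apply integral_mono hintS ((hintS2.const_mul _).add (integrable_const _))
    intro x
    have e1 : ∑ q ∈ I, ∑ Q ∈ I, f q x * f Q x = (∑ q ∈ I, f q x) ^ 2 := by
      rw [sq, Finset.sum_mul_sum]
    change ∑ q ∈ I, f q x ≤ 1 / (2 * t) * (∑ q ∈ I, ∑ Q ∈ I, f q x * f Q x) + t / 2
    rw [e1]
    set S := ∑ q ∈ I, f q x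
    have : 1 / (2 * t) * S ^ 2 + t / 2 - S = (S - t) ^ 2 / (2 * t) := by
      field_simp; ring
    have h4 : 0 ≤ (S - t) ^ 2 / (2 * t) := by positivity
    linarith
  refine h3.trans (le_of_eq ?_)
  rw [integral_add (hintS2.const_mul _) (integrable_const _), integral_const_mul, integral_const]
  simp [mul_comm]

/-- The total overlap. -/
theorem total_overlap {y : ℝ × ℝ} (C : Choice y) (ψ : ℕ → ℝ) (hψ0 : ∀ q, 0 ≤ ψ q)
    (hψ1 : ∀ q, ψ q ≤ 1 / 4) (I : Finset ℕ) (hI : ∀ q ∈ I, 1 ≤ q) :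
    ∑ q ∈ I, ∑ Q ∈ I, volume.real (E C ψ q ∩ E C ψ Q ∩ Sq) ≤
      4608 * (∑ q ∈ I, ψ q ^ 2) ^ 2 + 2340 * (∑ q ∈ I, ψ q ^ 2) := by
  classical
  set M := ∑ q ∈ I, ψ q ^ 2 with hM
  set v : ℕ → ℕ → ℝ := fun q Q => volume.real (E C ψ q ∩ E C ψ Q ∩ Sq) with hv
  have hv0 : ∀ q Q, 0 ≤ v q Q := fun q Q => measureReal_nonneg
  have hvs : ∀ q Q, v q Q = v Q q := fun q Q => by
    simp only [hv]
    rw [Set.inter_comm (E C ψ q)]
  -- diagonal
  have hdiag : ∀ q ∈ I, v q q ≤ 36 * ψ q ^ 2 := by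
    intro q hq
    have hsub : E C ψ q ∩ E C ψ q ∩ Sq ⊆
        {x : ℝ | x ∈ Set.Icc (0 : ℝ) 1 ∧ ∃ a : ℤ, ((1 : ℕ) : ℤ) ∣ a - 0 ∧
          |((q * 1 : ℕ) : ℝ) * x - a - y.1| < ψ q} ×ˢ
        {x : ℝ | x ∈ Set.Icc (0 : ℝ) 1 ∧ ∃ a : ℤ, ((1 : ℕ) : ℤ) ∣ a - 0 ∧
          |((q * 1 : ℕ) : ℝ) * x - a - y.2| < ψ q} := by
      rintro x ⟨⟨⟨a, _, h1, h2⟩, _⟩, hx1, hx2⟩
      refine ⟨⟨hx1, a.1, by simp, ?_⟩, ⟨hx2, a.2, by simp, ?_⟩⟩
      · rw [mul_one]; exact h1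
      · rw [mul_one]; exact h2
    have hψ2 : ψ q ≤ 1 / 2 := (hψ1 q).trans (by norm_num)
    have h1 := vol_class y.1 (ψ q) (hψ0 q) hψ2 q 1 (hI q hq) le_rfl 0
    have h2 := vol_class y.2 (ψ q) (hψ0 q) hψ2 q 1 (hI q hq) le_rfl 0
    have h3 : volume (E C ψ q ∩ E C ψ q ∩ Sq) ≤ ENNReal.ofReal (36 * ψ q ^ 2) := by
      refine (measure_mono hsub).trans ?_
      rw [Measure.volume_eq_prod, Measure.prod_prod]
      have h0 := hψ0 q
      have : ENNReal.ofReal (36 * ψ q ^ 2) = ENNReal.ofReal (6 * (ψ q / ((1 : ℕ) : ℝ))) *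
          ENNReal.ofReal (6 * (ψ q / ((1 : ℕ) : ℝ))) := by
        rw [← ENNReal.ofReal_mul (by positivity)]
        congr 1
        push_cast
        ring
      rw [this]
      exact mul_le_mul' h1 h2
    exact ENNReal.toReal_le_of_le_ofReal (by have := hψ0 q; positivity) h3
  -- off diagonal
  have hoff : ∑ Q ∈ I, ∑ q ∈ I.filter (fun q => q ≠ Q ∧ ψ q ≤ ψ Q), v q Q ≤
      2304 * M ^ 2 + 1152 * M := by
    calc ∑ Q ∈ I, ∑ q ∈ I.filter (fun q => q ≠ Q ∧ ψ q ≤ ψ Q), v q Q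
        ≤ ∑ Q ∈ I, (2304 * ψ Q ^ 2 * M + 1152 * ψ Q ^ 2) := by
          apply Finset.sum_le_sum
          intro Q hQ
          refine (anchor_bound C ψ hψ0 hψ1 Q (hI Q hQ) _ (fun q hq => ?_)).trans ?_
          · obtain ⟨h1, h2, h3⟩ := Finset.mem_filter.mp hq
            exact ⟨hI q h1, h2, h3⟩
          · have h1 : ∑ q ∈ I.filter (fun q => q ≠ Q ∧ ψ q ≤ ψ Q), ψ q ^ 2 ≤ M :=
              Finset.sum_le_sum_of_subset_of_nonneg (Finset.filter_subset _ _)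
                (fun q _ _ => by positivity)
            have h2 : 0 ≤ 2304 * ψ Q ^ 2 := by positivity
            nlinarith
      _ = 2304 * M ^ 2 + 1152 * M := by
          rw [Finset.sum_add_distrib, ← Finset.sum_mul, ← Finset.mul_sum, ← Finset.mul_sum, ← hM]
          ring
  -- combine
  have hsplit : ∀ Q ∈ I, ∑ q ∈ I, v q Q ≤ v Q Q +
      ∑ q ∈ I.filter (fun q => q ≠ Q ∧ ψ q ≤ ψ Q), v q Q +
      ∑ q ∈ I.filter (fun q => Q ≠ q ∧ ψ Q ≤ ψ q), v q Q := by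
    intro Q hQ
    have h1 : ∑ q ∈ I.filter (fun q => q ≠ Q ∧ ψ q ≤ ψ Q), v q Q =
        ∑ q ∈ I, if q ≠ Q ∧ ψ q ≤ ψ Q then v q Q else 0 := Finset.sum_filter _ _
    have h2 : ∑ q ∈ I.filter (fun q => Q ≠ q ∧ ψ Q ≤ ψ q), v q Q =
        ∑ q ∈ I, if Q ≠ q ∧ ψ Q ≤ ψ q then v q Q else 0 := Finset.sum_filter _ _
    have h3 : v Q Q = ∑ q ∈ I, if q = Q then v q Q else 0 := by
      rw [Finset.sum_ite_eq' I Q (fun q => v q Q), if_pos hQ]
    rw [h1, h2, h3, ← Finset.sum_add_distrib, ← Finset.sum_add_distrib]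
    apply Finset.sum_le_sum
    intro q _
    have h4 := hv0 q Q
    by_cases hqQ : q = Q
    · rw [if_pos hqQ]
      have : 0 ≤ (if q ≠ Q ∧ ψ q ≤ ψ Q then v q Q else 0) := by split_ifs <;> linarith
      have : 0 ≤ (if Q ≠ q ∧ ψ Q ≤ ψ q then v q Q else 0) := by split_ifs <;> linarith
      linarith
    · rw [if_neg hqQ]
      rcases le_total (ψ q) (ψ Q) with h | h
      · rw [if_pos ⟨hqQ, h⟩]
        have : 0 ≤ (if Q ≠ q ∧ ψ Q ≤ ψ q then v q Q else 0) := by split_ifs <;> linarith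
        linarith
      · have : 0 ≤ (if q ≠ Q ∧ ψ q ≤ ψ Q then v q Q else 0) := by split_ifs <;> linarith
        rw [if_pos (show Q ≠ q ∧ ψ Q ≤ ψ q from ⟨fun h' => hqQ h'.symm, h⟩)]
        linarith
  have hswap : ∑ Q ∈ I, ∑ q ∈ I.filter (fun q => Q ≠ q ∧ ψ Q ≤ ψ q), v q Q =
      ∑ Q ∈ I, ∑ q ∈ I.filter (fun q => q ≠ Q ∧ ψ q ≤ ψ Q), v q Q := by
    simp only [Finset.sum_filter]
    rw [Finset.sum_comm]
    apply Finset.sum_congr rfl
    intro Q _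
    apply Finset.sum_congr rfl
    intro q _
    rw [hvs Q q]
  have hdiagsum : ∑ Q ∈ I, v Q Q ≤ 36 * M := by
    rw [hM, Finset.mul_sum]
    exact Finset.sum_le_sum hdiag
  rw [Finset.sum_comm]
  calc ∑ Q ∈ I, ∑ q ∈ I, v q Q ≤ ∑ Q ∈ I, (v Q Q +
      ∑ q ∈ I.filter (fun q => q ≠ Q ∧ ψ q ≤ ψ Q), v q Q +
      ∑ q ∈ I.filter (fun q => Q ≠ q ∧ ψ Q ≤ ψ q), v q Q) := Finset.sum_le_sum hsplit
    _ = ∑ Q ∈ I, v Q Q + ∑ Q ∈ I, ∑ q ∈ I.filter (fun q => q ≠ Q ∧ ψ q ≤ ψ Q), v q Q +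
        ∑ Q ∈ I, ∑ q ∈ I.filter (fun q => Q ≠ q ∧ ψ Q ≤ ψ q), v q Q := by
        rw [Finset.sum_add_distrib, Finset.sum_add_distrib]
    _ ≤ 36 * M + (2304 * M ^ 2 + 1152 * M) + (2304 * M ^ 2 + 1152 * M) := by
        rw [hswap]
        gcongr
    _ = 4608 * M ^ 2 + 2340 * M := by ring

end Pool.Agent.Q3.NK
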