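import Mathlib
import Pool.Agent.Q3.NK.Moment

/-!
# The nonmonotonic inhomogeneous Khintchine theorem in dimension two
-/

set_option autoImplicit false

open MeasureTheory Filter Topology

namespace Pool.Agent.Q3.NK

/-- The open unit square. -/
def Sqo : Set (ℝ × ℝ) := Set.Ioo (0 : ℝ) 1 ×ˢ Set.Ioo (0 : ℝ) 1

theorem Sqo_subset : Sqo ⊆ Sq := Set.prod_mono Set.Ioo_subset_Icc_self Set.Ioo_subset_Icc_self

theorem vol_Sqo : volume Sqo = 1 := by
  unfold Sqo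
  rw [Measure.volume_eq_prod, Measure.prod_prod, Real.volume_Ioo]
  simp

theorem vol_Cell (α1 α2 σ : ℝ) (hσ : 0 ≤ σ) : volume.real (Cell α1 α2 σ) = σ ^ 2 := by
  unfold Cell Measure.real
  rw [Measure.volume_eq_prod, Measure.prod_prod, Real.volume_Ico, Real.volume_Ico,
    ENNReal.toReal_mul, add_sub_cancel_left, add_sub_cancel_left, ENNReal.toReal_ofReal hσ]
  ring

theorem meas_Cell (α1 α2 σ : ℝ) : MeasurableSet (Cell α1 α2 σ) :=
  measurableSet_Ico.prod measurableSet_Ico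

/-- Grid cells. -/
def Gc (n : ℕ) (p : ℕ × ℕ) : Set (ℝ × ℝ) := Cell ((p.1 : ℝ) / n) ((p.2 : ℝ) / n) (1 / n)

theorem Gc_disjoint (n : ℕ) (hn : 1 ≤ n) (p r : ℕ × ℕ) (h : p ≠ r) : Disjoint (Gc n p) (Gc n r) := by
  have hn0 : (0 : ℝ) < n := by exact_mod_cast hn
  rw [Set.disjoint_left]
  rintro x ⟨⟨h1, h2⟩, h3, h4⟩ ⟨⟨h5, h6⟩, h7, h8⟩
  have key : ∀ (a b : ℕ) (z : ℝ), (a : ℝ) / n ≤ z → z < (b : ℝ) / n + 1 / n → a ≤ b := by
    intro a b z e1 e2
    have e3 : (a : ℝ) / n < ((b : ℝ) + 1) / n := by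
      rw [add_div]; linarith
    rw [div_lt_div_iff_of_pos_right hn0] at e3
    have e4 : a < b + 1 := by exact_mod_cast e3
    omega
  apply h
  apply Prod.ext
  · exact le_antisymm (key _ _ _ h1 h6) (key _ _ _ h5 h2)
  · exact le_antisymm (key _ _ _ h3 h8) (key _ _ _ h7 h4)

theorem null_avoid {y : ℝ × ℝ} (C : Choice y) (ψ : ℕ → ℝ) (hψ0 : ∀ q, 0 ≤ ψ q)
    (hψ1 : ∀ q, ψ q ≤ 1 / 4) (hdiv : ¬ Summable (fun q => ψ q ^ 2)) (T : ℕ) :
    volume (Sqo ∩ ⋂ q : ℕ, ⋂ _ : T ≤ q, (E C ψ q)ᶜ) = 0 := by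
  classical
  set Z : Set (ℝ × ℝ) := Sqo ∩ ⋂ q : ℕ, ⋂ _ : T ≤ q, (E C ψ q)ᶜ with hZ
  have hZm : MeasurableSet Z := by
    apply MeasurableSet.inter (measurableSet_Ioo.prod measurableSet_Ioo)
    exact MeasurableSet.iInter (fun q => MeasurableSet.iInter (fun _ =>
      (E_open C ψ q).measurableSet.compl))
  by_contra hne
  have hpos : 0 < volume Z := pos_iff_ne_zero.mpr hne
  obtain ⟨K, hKZ, hK, hKpos⟩ := hZm.exists_lt_isCompact hpos
  have hKsq : K ⊆ Sqo := fun x hx => (hKZ hx).1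
  have hKfin : volume K ≠ ⊤ := hK.measure_lt_top.ne
  set κ : ℝ := volume.real K with hκ
  have hκ0 : 0 < κ := ENNReal.toReal_pos hKpos.ne' hKfin
  have hKE : ∀ q, T ≤ q → Disjoint (E C ψ q) K := by
    intro q hq
    rw [Set.disjoint_left]
    intro x hx hxK
    have := (hKZ hxK).2
    simp only [Set.mem_iInter] at this
    exact this q hq hx
  set ε : ℝ := κ ^ 2 / 20000 with hε
  have hε0 : 0 < ε := by positivity
  obtain ⟨O, hKO, hO, hOv⟩ := K.exists_isOpen_le_add volume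
    (show ENNReal.ofReal ε ≠ 0 by rw [Ne, ENNReal.ofReal_eq_zero]; exact not_le.mpr hε0)
  have hO' : IsOpen (O ∩ Sqo) := hO.inter (isOpen_Ioo.prod isOpen_Ioo)
  obtain ⟨δ, hδ0, hδ⟩ := hK.exists_thickening_subset_open hO' (Set.subset_inter hKO hKsq)
  obtain ⟨n, hn⟩ := exists_nat_gt (1 / δ)
  have hn0 : (0 : ℝ) < n := by
    have : 0 < 1 / δ := by positivity
    linarith
  have hn1 : 1 ≤ n := by
    have : 0 < n := by exact_mod_cast hn0
    omega
  have hnδ : 1 / (n : ℝ) < δ := by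
    rw [div_lt_iff₀ hδ0] at hn
    rw [div_lt_iff₀ hn0]
    linarith
  set σ : ℝ := 1 / n with hσ
  have hσ0 : 0 < σ := by positivity
  set 𝒮 : Finset (ℕ × ℕ) := (Finset.range n ×ˢ Finset.range n).filter
    (fun p => (Gc n p ∩ K).Nonempty) with h𝒮
  set U : Set (ℝ × ℝ) := ⋃ p ∈ 𝒮, Gc n p with hU
  have hUO : U ⊆ O ∩ Sqo := by
    intro x hx
    simp only [hU, Set.mem_iUnion] at hx
    obtain ⟨p, hp, hxp⟩ := hx
    obtain ⟨_, k, hk1, hk2⟩ := Finset.mem_filter.mp hp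
    apply hδ
    rw [Metric.mem_thickening_iff]
    refine ⟨k, hk2, ?_⟩
    rw [Prod.dist_eq, Real.dist_eq, Real.dist_eq]
    obtain ⟨⟨e1, e2⟩, e3, e4⟩ := hxp
    obtain ⟨⟨e5, e6⟩, e7, e8⟩ := hk1
    apply max_lt
    · rw [abs_lt]; constructor <;> linarith
    · rw [abs_lt]; constructor <;> linarith
  have hKU : K ⊆ U := by
    intro x hx
    obtain ⟨⟨h1, h2⟩, h3, h4⟩ := hKsq hx
    have key : ∀ z : ℝ, 0 < z → z < 1 → ⌊n * z⌋₊ < n ∧ ((⌊n * z⌋₊ : ℕ) : ℝ) / n ≤ z ∧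
        z < ((⌊n * z⌋₊ : ℕ) : ℝ) / n + 1 / n := by
      intro z z0 z1
      have f1 := Nat.floor_le (show (0 : ℝ) ≤ n * z by positivity)
      have f2 := Nat.lt_floor_add_one ((n : ℝ) * z)
      refine ⟨?_, ?_, ?_⟩
      · rw [Nat.floor_lt (by positivity)]
        nlinarith
      · rw [div_le_iff₀ hn0]; linarith
      · rw [← add_div, lt_div_iff₀ hn0]; linarith
    obtain ⟨a1, a2, a3⟩ := key x.1 h1 h2
    obtain ⟨b1, b2, b3⟩ := key x.2 h3 h4
    have hmem : x ∈ Gc n (⌊n * x.1⌋₊, ⌊n * x.2⌋₊) := ⟨⟨a2, a3⟩, b2, b3⟩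
    simp only [hU, Set.mem_iUnion]
    refine ⟨(⌊n * x.1⌋₊, ⌊n * x.2⌋₊), ?_, hmem⟩
    rw [h𝒮, Finset.mem_filter, Finset.mem_product, Finset.mem_range, Finset.mem_range]
    exact ⟨⟨a1, b1⟩, x, hmem, hx⟩
  have hUm : MeasurableSet U := Finset.measurableSet_biUnion _ (fun p _ => meas_Cell _ _ _)
  have hUsq : U ⊆ Sqo := fun x hx => (hUO hx).2
  have hfin : ∀ S : Set (ℝ × ℝ), S ⊆ Sqo → volume S ≠ ⊤ := by
    intro S hS
    apply ne_top_of_le_ne_top _ (measure_mono hS)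
    rw [vol_Sqo]
    exact ENNReal.one_ne_top
  have hUv : volume.real U = 𝒮.card * σ ^ 2 := by
    rw [hU, measureReal_biUnion_finset (fun p _ r _ h => Gc_disjoint n hn1 p r h)
      (fun p _ => meas_Cell _ _ _) (fun p hp => hfin _ (by
        intro x hx
        apply hUsq
        simp only [hU, Set.mem_iUnion]
        exact ⟨p, hp, hx⟩))]
    have hvc : ∀ p ∈ 𝒮, volume.real (Gc n p) = σ ^ 2 := fun p _ => vol_Cell _ _ _ hσ0.le
    rw [Finset.sum_congr rfl hvc, Finset.sum_const, nsmul_eq_mul]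
  have hUκ : κ ≤ 𝒮.card * σ ^ 2 := by
    rw [← hUv]
    exact measureReal_mono hKU (hfin U hUsq)
  obtain ⟨q0, hq01, hq0⟩ := local_lower C ψ hψ0 hψ1 σ hσ0
  set T' := max T q0 with hT'
  -- the measure
  set ν : Measure (ℝ × ℝ) := volume.restrict (U \ K) with hν
  have hUKfin : volume (U \ K) ≠ ⊤ := hfin _ (fun x hx => hUsq hx.1)
  haveI : IsFiniteMeasure ν := ⟨by
    rw [hν, Measure.restrict_apply_univ]
    exact hUKfin.lt_top⟩
  have hνuniv : ν.real Set.univ ≤ ε := by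
    have h1 : volume (U \ K) ≤ ENNReal.ofReal ε := by
      have h2 : volume (U \ K) ≤ volume (O \ K) :=
        measure_mono (Set.diff_subset_diff_left (fun x hx => (hUO hx).1))
      refine h2.trans ?_
      rw [measure_sdiff hKO hK.measurableSet.nullMeasurableSet hKfin]
      exact tsub_le_iff_left.mpr hOv
    have h3 : ν.real Set.univ = volume.real (U \ K) := by
      rw [hν, measureReal_def, Measure.restrict_apply_univ, measureReal_def]
    rw [h3]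
    exact ENNReal.toReal_le_of_le_ofReal hε0.le h1
  have hνE : ∀ q, T' ≤ q → 2 / 3 * κ * ψ q ^ 2 ≤ ν.real (E C ψ q) := by
    intro q hq
    have hqT : T ≤ q := (le_max_left _ _).trans hq
    have hqq0 : q0 ≤ q := (le_max_right _ _).trans hq
    have h1 : ν.real (E C ψ q) = volume.real (E C ψ q ∩ U) := by
      rw [hν, measureReal_def, Measure.restrict_apply (E_open C ψ q).measurableSet, measureReal_def]
      congr 2
      ext x
      constructor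
      · rintro ⟨h1, h2, h3⟩; exact ⟨h1, h2⟩
      · rintro ⟨h1, h2⟩
        exact ⟨h1, h2, fun h3 => Set.disjoint_left.mp (hKE q hqT) h1 h3⟩
    have h2 : E C ψ q ∩ U = ⋃ p ∈ 𝒮, (E C ψ q ∩ Gc n p) := by
      rw [hU, Set.inter_iUnion₂]
    have hd : (𝒮 : Set (ℕ × ℕ)).PairwiseDisjoint (fun p => E C ψ q ∩ Gc n p) := by
      intro p _ r _ h
      exact (Gc_disjoint n hn1 p r h).mono Set.inter_subset_right Set.inter_subset_right
    have hmm : ∀ p ∈ 𝒮, MeasurableSet (E C ψ q ∩ Gc n p) := by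
      intro p _
      exact (E_open C ψ q).measurableSet.inter (meas_Cell _ _ _)
    have hff : ∀ p ∈ 𝒮, volume (E C ψ q ∩ Gc n p) ≠ ⊤ := by
      intro p hp
      apply hfin
      rintro x ⟨_, hx⟩
      apply hUsq
      simp only [hU, Set.mem_iUnion]
      exact ⟨p, hp, hx⟩
    rw [h1, h2, measureReal_biUnion_finset hd hmm hff]
    · calc 2 / 3 * κ * ψ q ^ 2 ≤ 2 / 3 * (𝒮.card * σ ^ 2) * ψ q ^ 2 := by gcongr
        _ = ∑ p ∈ 𝒮, 2 / 3 * σ ^ 2 * ψ q ^ 2 := by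
            rw [Finset.sum_const, nsmul_eq_mul]; ring
        _ ≤ ∑ p ∈ 𝒮, volume.real (E C ψ q ∩ Gc n p) :=
            Finset.sum_le_sum (fun p _ => hq0 q hqq0 _ _)
  have hνEE : ∀ q Q, ν.real (E C ψ q ∩ E C ψ Q) ≤ volume.real (E C ψ q ∩ E C ψ Q ∩ Sq) := by
    intro q Q
    rw [hν, measureReal_def, Measure.restrict_apply ((E_open C ψ q).measurableSet.inter
      (E_open C ψ Q).measurableSet)]
    apply ENNReal.toReal_mono
    · apply ne_top_of_le_ne_top _ (measure_mono Set.inter_subset_right)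
      unfold Sq
      rw [Measure.volume_eq_prod, Measure.prod_prod, Real.volume_Icc]
      simp
    · apply measure_mono
      rintro x ⟨h1, h2⟩
      exact ⟨h1, Sqo_subset (hUsq h2.1)⟩
  -- divergence
  obtain ⟨N, hN⟩ : ∃ N, 1 ≤ ∑ q ∈ Finset.Ico T' N, ψ q ^ 2 := by
    have htend := (not_summable_iff_tendsto_nat_atTop_of_nonneg (fun q => sq_nonneg (ψ q))).mp hdiv
    obtain ⟨N, hN1, hN2⟩ := ((htend.eventually_ge_atTop
      (1 + ∑ q ∈ Finset.range T', ψ q ^ 2)).and (eventually_ge_atTop T')).exists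
    refine ⟨N, ?_⟩
    rw [Finset.sum_Ico_eq_sub _ hN2]
    linarith
  set I := Finset.Ico T' N with hI
  set M := ∑ q ∈ I, ψ q ^ 2 with hM
  have hI1 : ∀ q ∈ I, 1 ≤ q := by
    intro q hq
    rw [hI, Finset.mem_Ico] at hq
    have : q0 ≤ T' := le_max_right _ _
    omega
  set τ : ℝ := 10500 / κ with hτ
  have hτ0 : 0 < τ := by positivity
  have hsm := second_moment ν I (E C ψ) (fun q => (E_open C ψ q).measurableSet) (τ * M)
    (by positivity)
  have hlow : 2 / 3 * κ * M ≤ ∑ q ∈ I, ν.real (E C ψ q) := by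
    rw [hM, Finset.mul_sum]
    apply Finset.sum_le_sum
    intro q hq
    rw [hI, Finset.mem_Ico] at hq
    exact hνE q hq.1
  have hup : ∑ q ∈ I, ∑ Q ∈ I, ν.real (E C ψ q ∩ E C ψ Q) ≤ 7000 * M ^ 2 := by
    refine (Finset.sum_le_sum (fun q _ => Finset.sum_le_sum (fun Q _ => hνEE q Q))).trans ?_
    refine (total_overlap C ψ hψ0 hψ1 I hI1).trans ?_
    rw [← hM]
    nlinarith
  have hM0 : 0 < M := by linarith
  have h1 : 2 / 3 * κ * M ≤ 1 / (2 * (τ * M)) * (7000 * M ^ 2) + τ * M / 2 * ε := by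
    refine hlow.trans (hsm.trans ?_)
    gcongr
  have h2 : 1 / (2 * (τ * M)) * (7000 * M ^ 2) = κ / 3 * M := by
    rw [hτ]; field_simp; ring
  have h3 : τ * M / 2 * ε = 10500 / 40000 * κ * M := by
    rw [hτ, hε]; field_simp; ring
  rw [h2, h3] at h1
  nlinarith [mul_pos hκ0 hM0]

/-- The theorem for small `ψ`. -/
theorem main_small (y : ℝ × ℝ) (ψ : ℕ → ℝ) (hψ0 : ∀ q, 0 ≤ ψ q)
    (hψ1 : ∀ q, ψ q ≤ 1 / 4) (hdiv : ¬ Summable (fun q => ψ q ^ 2)) :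
    ∀ᵐ x ∂(volume.restrict (Set.Icc (0 : ℝ × ℝ) 1)),
      {q : ℕ | 0 < q ∧ ∃ a : ℤ × ℤ, ‖(q : ℝ) • x - ((a.1 : ℝ), (a.2 : ℝ)) - y‖ < ψ q}.Infinite := by
  obtain ⟨C⟩ := exists_choice y
  have hae : (Set.Icc (0 : ℝ × ℝ) 1) =ᵐ[volume] Sqo := by
    have h1 : Set.Icc (0 : ℝ × ℝ) 1 = Set.Icc (0 : ℝ) 1 ×ˢ Set.Icc (0 : ℝ) 1 := by
      exact (Set.Icc_prod_eq (0 : ℝ × ℝ) 1)
    rw [h1]
    unfold Sqo
    rw [Measure.volume_eq_prod]
    exact (Measure.set_prod_ae_eq Ioo_ae_eq_Icc Ioo_ae_eq_Icc).symm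
  rw [Measure.restrict_congr_set hae]
  have hmeas : MeasurableSet Sqo := measurableSet_Ioo.prod measurableSet_Ioo
  rw [ae_restrict_iff' hmeas]
  have h2 : ∀ᵐ x : ℝ × ℝ, ∀ T : ℕ, x ∉ Sqo ∩ ⋂ q : ℕ, ⋂ _ : T ≤ q, (E C ψ q)ᶜ := by
    rw [ae_all_iff]
    intro T
    exact measure_eq_zero_iff_ae_notMem.mp (null_avoid C ψ hψ0 hψ1 hdiv T)
  filter_upwards [h2] with x hx hxS
  rw [Set.infinite_iff_exists_gt]
  intro T
  have h3 := hx (T + 1)
  have h4 : ¬ x ∈ ⋂ q : ℕ, ⋂ _ : T + 1 ≤ q, (E C ψ q)ᶜ := fun h => h3 ⟨hxS, h⟩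
  simp only [Set.mem_iInter, not_forall, Set.mem_compl_iff, not_not] at h4
  obtain ⟨q, hq, a, _, h5, h6⟩ := h4
  refine ⟨q, ⟨by omega, a, ?_⟩, by omega⟩
  rw [Prod.norm_def]
  simp only [Prod.fst_sub, Prod.smul_fst, Prod.snd_sub, Prod.smul_snd, smul_eq_mul,
    Real.norm_eq_abs]
  exact max_lt h5 h6

/-- The theorem. -/
theorem main (y : ℝ × ℝ) (ψ : ℕ → ℝ) (hψ0 : ∀ q, 0 ≤ ψ q)
    (hdiv : ¬ Summable (fun q => ψ q ^ 2)) :
    ∀ᵐ x ∂(volume.restrict (Set.Icc (0 : ℝ × ℝ) 1)),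
      {q : ℕ | 0 < q ∧ ∃ a : ℤ × ℤ, ‖(q : ℝ) • x - ((a.1 : ℝ), (a.2 : ℝ)) - y‖ < ψ q}.Infinite := by
  have h1 := main_small y (fun q => min (ψ q) (1 / 4)) (fun q => le_min (hψ0 q) (by norm_num))
    (fun q => min_le_right _ _) (by
      intro hs
      apply hdiv
      have hlim := hs.tendsto_atTop_zero
      have hev : ∀ᶠ q in atTop, min (ψ q) (1 / 4) ^ 2 < 1 / 16 :=
        hlim.eventually (gt_mem_nhds (by norm_num))
      obtain ⟨N, hN⟩ := eventually_atTop.mp hev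
      have hs2 := (summable_nat_add_iff N).mpr hs
      rw [← summable_nat_add_iff N]
      refine hs2.congr (fun q => ?_)
      have h2 := hN (q + N) (by omega)
      have h3 : ψ (q + N) < 1 / 4 := by
        by_contra hcon
        push Not at hcon
        rw [min_eq_right hcon] at h2
        norm_num at h2
      rw [min_eq_left h3.le])
  filter_upwards [h1] with x hx
  refine hx.mono ?_
  rintro q ⟨hq, a, ha⟩
  exact ⟨hq, a, ha.trans_le (min_le_left _ _)⟩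

end Pool.Agent.Q3.NK
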